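import Pool.Agent.Lib.MP_adc574_ag_TR.Def
import Pool.Agent.Lib.MP_adc574_ag_TB.P2
import Pool.Agent.Lib.MP_adc574_ag_TB.P3
import Pool.Agent.Lib.MP_adc574_ag_TB.P5
import Pool.Agent.Lib.MP_adc574_ag_TT.D1
import Pool.Agent.Lib.MP_adc574_ag_TT.P1
import Pool.Agent.Lib.MP_adc574_ag_TT.P4

/-! Large subspaces are hit -/

set_option autoImplicit false

namespace MPadcTR

open OrdRed OrdRel MPadcTT

universe u v w

/-- Proof. The cases of `Large`: `(hodge m i).submoduleOf V = ⊥`: `hit_bot`; `= ⊤`: `hit_top`; dimension and codimension one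
(subspaces `U'` of `V` stable under `C.res V hV` give `U'.map V.subtype`): `hit_gen`, `hit_cogen`; `B`: `hit_big`, where
`Hor (C.res V hV) W` implies `Horizontal (fun D (x y : V) => X.nabla m D x y) W` (`hC`); general position: `hit_pos`. -/
theorem hit_large {k : Type u} [Field k] [CharZero k] {n : ℕ} (X : Cover.{u, u} k n) {m : ℕ}
    [FiniteDimensional k (X.DR m)] (C : Cn k (X.DR m)) (hC : ∀ D x y, X.nabla m D x y ↔ y = C.c D x)
    (V : Submodule k (X.DR m)) (hV : ∀ D, ∀ x ∈ V, C.c D x ∈ V) (hL : Large X V) (i : ℕ) (P : Submodule k (X.DR m)) :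
    Hit (C.res V hV) ((X.hodge m i).submoduleOf V) (P.submoduleOf V) := by
  obtain ⟨hst, hL⟩ := hL
  have hmap : ((X.hodge m i).submoduleOf V).map V.subtype = V ⊓ X.hodge m i := Submodule.map_comap_subtype _ _
  have hfin : Module.finrank k ↥(V ⊓ X.hodge m i) = Module.finrank k ↥((X.hodge m i).submoduleOf V) := by
    rw [← hmap]
    exact Submodule.finrank_map_subtype_eq V _
  have hstab : ∀ U : Submodule k V, (∀ D, ∀ x ∈ U, (C.res V hV).c D x ∈ U) → Stable (X.nabla m) (U.map V.subtype) := by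
    intro U hU D x hx y hy
    obtain ⟨x', hx', rfl⟩ := hx
    rw [(hC D _ y).1 hy]
    exact ⟨(C.res V hV).c D x', hU D x' hx', rfl⟩
  have hhor : ∀ (r : ℕ) (W : Submodule k (V [⋀^Fin r]→ₗ[k] k)), Hor (C.res V hV) W →
      Horizontal (fun D (x y : V) => X.nabla m D x y) W := by
    intro r W hW D ω hω
    obtain ⟨ω', hω', h⟩ := hW D ω hω
    refine ⟨ω', hω', fun x y hxy => ?_⟩
    have hy : y = fun l => (C.res V hV).c D (x l) := by
      funext l
      exact Subtype.ext ((hC D _ _).1 (hxy l))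
    subst hy
    exact h x
  rcases hL i with h | h | ⟨h, hgen⟩ | ⟨h, hno⟩ | ⟨B, hB, hbig⟩ | hpos
  · have h0 : (X.hodge m i).submoduleOf V = ⊥ := by
      rw [eq_bot_iff]
      intro x hx
      have h1 : (x : X.DR m) ∈ V ⊓ X.hodge m i := ⟨x.2, hx⟩
      rw [h, Submodule.mem_bot] at h1
      exact (Submodule.mem_bot k).2 (Subtype.ext h1)
    rw [h0]
    exact hit_bot _ _
  · have h0 : (X.hodge m i).submoduleOf V = ⊤ := by
      rw [eq_top_iff]
      intro x _
      exact h x.2
    rw [h0]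
    exact hit_top _ _
  · rw [hfin] at h
    refine hit_gen _ _ _ h fun U hU hle => ?_
    have h2 := hgen _ (Submodule.map_subtype_le V U) (hstab U hU) (by rw [← hmap]; exact Submodule.map_mono hle)
    refine Submodule.map_injective_of_injective (Submodule.injective_subtype V) ?_
    rw [h2, Submodule.map_subtype_top]
  · rw [hfin] at h
    refine hit_cogen _ _ _ h fun U hU hle => ?_
    have h2 := hno _ (by rw [← hmap]; exact Submodule.map_mono hle) (hstab U hU)
    refine Submodule.map_injective_of_injective (Submodule.injective_subtype V) ?_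
    rw [h2, Submodule.map_bot]
  · rw [hfin] at hB
    exact hit_big _ _ _ B hB fun r W hW => hbig r W (hhor r W hW)
  · refine hit_pos _ _ _ fun hd W hW hω => ?_
    rw [← hfin] at hd
    have key : ∀ r : ℕ, r = Module.finrank k ↥(V ⊓ X.hodge m i) → ∀ W : Submodule k (V [⋀^Fin r]→ₗ[k] k),
        Hor (C.res V hV) W → (∃ ω ∈ W, ω ≠ 0 ∧ ∀ x : Fin r → V, (∃ l, x l ∈ P.submoduleOf V) → ω x = 0) →
          ∃ ω ∈ W, ∃ x, (∀ l, x l ∈ (X.hodge m i).submoduleOf V) ∧ ω x ≠ 0 := by
      rintro r rfl W hW hω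
      exact hpos (P.submoduleOf V) hd W (hhor _ W hW) hω
    exact key _ hfin.symm W hW hω

end MPadcTR
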