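import Pool.Agent.Lib.MP_adc574_ag_TB.G4
import Pool.Agent.Lib.MP_adc574_ag_TT.D1

/-! Stable subspaces on which the filtrations are opposite are bigraded -/

set_option autoImplicit false

namespace MPadcTT

universe u v w

variable {k : Type u} [Field k] {H : ℕ → Type v} [∀ n, AddCommGroup (H n)] [∀ n, Module k (H n)]
  {C : ∀ n, Cn k (H n)} {mu : ∀ n m, H n →ₗ[k] H m →ₗ[k] H (n + m)} {β : ℕ → Type} [∀ n, Fintype (β n)]
  {b : ∀ n, Module.Basis (β n) k (H n)}

section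

variable {R : Type w} [CommRing R] [Algebra k R]

/-- The value of `T.Ps` at the base point. -/
theorem eps_Ps (T : Tr C mu b R) {n : ℕ} {ι : Type} [Fintype ι] [DecidableEq ι] (lam : ι → H n →ₗ[k] k) (x : ι → H n) :
    T.ε (T.Ps lam x) = (Matrix.of fun i j => lam i (x j)).det := by
  unfold Tr.Ps
  rw [RingHom.map_det]
  congr 1
  ext i j
  rw [RingHom.mapMatrix_apply, Matrix.map_apply, Matrix.of_apply, Matrix.of_apply]
  unfold ev
  rw [map_sum]
  have h1 : lam i (x j) = ∑ l, (b n).repr (x j) l * lam i (b n l) := by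
    conv_lhs => rw [← (b n).sum_repr (x j)]
    rw [map_sum]
    exact Finset.sum_congr rfl fun l _ => map_smul _ _ _
  rw [h1]
  refine Finset.sum_congr rfl fun l _ => ?_
  rw [map_mul, T.εa, T.εT, mul_comm]

/-- Opposite subspaces of `V` stay opposite. -/
theorem opp_of_compl (T : Tr C mu b R) {n : ℕ} {F P V : Submodule k (H n)} (h1 : F ⊔ P = V) (h2 : F ⊓ P = ⊥) :
    Opp T F P := by
  have hfin : FiniteDimensional k (H n) := Module.Finite.of_basis (b n)
  obtain ⟨V', hV'⟩ := Submodule.exists_isCompl V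
  have hFV : F ≤ V := h1 ▸ le_sup_left
  have hPV : P ≤ V := h1 ▸ le_sup_right
  have h3 : P ⊓ V' = ⊥ := by
    rw [eq_bot_iff, ← hV'.inf_eq_bot]
    exact inf_le_inf_right _ hPV
  have h4 : (P ⊔ V') ⊓ V = P := by
    rw [sup_inf_assoc_of_le V' hPV, hV'.symm.inf_eq_bot, sup_bot_eq]
  have h5 : F ⊓ (P ⊔ V') = ⊥ := by
    have h6 : F ⊓ (P ⊔ V') ≤ (P ⊔ V') ⊓ V := le_inf inf_le_right (inf_le_left.trans hFV)
    rw [h4] at h6
    rw [eq_bot_iff, ← h2]
    exact le_inf inf_le_left h6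
  have h6 : Module.finrank k ↥(P ⊔ V') + Module.finrank k F = Module.finrank k (H n) := by
    have e1 := Submodule.finrank_sup_add_finrank_inf_eq P V'
    rw [h3, finrank_bot] at e1
    have e2 := Submodule.finrank_add_eq_of_isCompl hV'
    have e3 := Submodule.finrank_sup_add_finrank_inf_eq F P
    rw [h2, finrank_bot, h1] at e3
    omega
  obtain ⟨lam, f, a1, a2, a3⟩ := exists_fun F (P ⊔ V') h6
  refine ⟨Fin (Module.finrank k F), inferInstance, inferInstance, lam, f, fun i x hx => ?_, a3, ?_, fun h0 => ?_⟩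
  · exact (a1 x).2 (Submodule.mem_sup_left hx) i
  · rw [Fintype.card_fin]
  · have h7 := eps_Ps T lam f
    rw [h0, map_zero] at h7
    obtain ⟨c, hc0, hc⟩ := Matrix.exists_mulVec_eq_zero_iff.2 h7.symm
    have h8 : ∀ i, lam i (∑ j, c j • f j) = 0 := by
      intro i
      have h9 := congrFun hc i
      rw [Pi.zero_apply] at h9
      rw [map_sum, ← h9]
      change _ = ∑ j, lam i (f j) * c j
      refine Finset.sum_congr rfl fun j _ => ?_
      rw [map_smul, smul_eq_mul, mul_comm]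
    have h9 : ∑ j, c j • f j ∈ F ⊓ (P ⊔ V') :=
      ⟨Submodule.sum_mem _ fun j _ => Submodule.smul_mem _ _ (a3 j), (a1 _).1 h8⟩
    rw [h5, Submodule.mem_bot] at h9
    exact hc0 (funext fun j => Fintype.linearIndependent_iff.1 a2 c h9 j)

end

section

variable {R : Type w} [CommRing R] [IsDomain R] [Algebra k R] (K : Type w) [Field K] [Algebra R K] [IsFractionRing R K]

/-- As `bi_of_sup`. -/
theorem bi_of_sup' (T : Tr C mu b R) {n : ℕ} {Fl P : ℕ → Submodule k (H n)} (zero : Fl 0 = ⊤)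
    (mono : ∀ i, P i ≤ P (i + 1)) (V : Submodule k (H n)) (hV : V ≤ P n)
    (h : ∀ i < n, QK b R K V ≤ GK K T (Fl (i + 1) ⊓ V) ⊔ QK b R K (P i ⊓ V)) : Bi K T Fl P V := by
  have hfin : FiniteDimensional k (H n) := Module.Finite.of_basis (b n)
  have key : ∀ i ≤ n, QK b R K (P i ⊓ V) ≤ ⨆ j, GK K T (Fl j) ⊓ QK b R K (P j) ⊓ QK b R K V := by
    intro i
    induction i with
    | zero =>
      intro _ y hy
      refine Submodule.mem_iSup_of_mem 0 ⟨⟨?_, qk_mono K inf_le_left hy⟩, qk_mono K inf_le_right hy⟩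
      rw [zero, GK_top]
      trivial
    | succ i ih =>
      intro hi y hy
      have hyP : y ∈ QK b R K (P (i + 1)) := qk_mono K inf_le_left hy
      have hyV : y ∈ QK b R K V := qk_mono K inf_le_right hy
      obtain ⟨a, ha, c, hc, rfl⟩ := Submodule.mem_sup.1 (h i (by omega) hyV)
      refine Submodule.add_mem _ ?_ (ih (by omega) hc)
      have hcP : c ∈ QK b R K (P (i + 1)) := qk_mono K (le_trans inf_le_left (mono i)) hc
      have hcV : c ∈ QK b R K V := qk_mono K inf_le_right hc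
      refine Submodule.mem_iSup_of_mem (i + 1) ⟨⟨gk_mono K T inf_le_left ha, ?_⟩, ?_⟩
      · exact (Submodule.add_mem_iff_left _ hcP).1 hyP
      · exact (Submodule.add_mem_iff_left _ hcV).1 hyV
  intro y hy
  refine key n le_rfl ?_
  rw [inf_eq_right.2 hV]
  exact hy

end

/-- A stable subspace on which the filtrations are opposite is bigraded. -/
theorem sem_rel {Fl P : ∀ n, ℕ → Submodule k (H n)} (zero : ∀ n, Fl n 0 = ⊤) (top : ∀ n i, n < i → Fl n i = ⊥)
    (mono : ∀ n i, P n i ≤ P n (i + 1)) {n : ℕ} (V : Submodule k (H n)) (hV : ∀ D, ∀ x ∈ V, (C n).c D x ∈ V)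
    (h : ∀ i, V ≤ P n i ⊓ V ⊔ Fl n (i + 1) ⊓ V) : Sem C mu b Fl P n V := by
  have hfin : FiniteDimensional k (H n) := Module.Finite.of_basis (b n)
  refine ⟨[], fun R _ _ _ T _ => ?_⟩
  have hVn : V ≤ P n n := by
    have h1 := h n
    rw [top n (n + 1) (by omega), bot_inf_eq, sup_bot_eq] at h1
    exact h1.trans inf_le_left
  refine bi_of_sup' (FractionRing R) T (zero n) (mono n) V hVn fun i _ => ?_
  -- a complement of `P n i ⊓ V` in `V`
  obtain ⟨B', hB'⟩ := Submodule.exists_isCompl ((P n i ⊓ V).submoduleOf (Fl n (i + 1) ⊓ V))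
  have hB1 : B'.map (Fl n (i + 1) ⊓ V).subtype ≤ Fl n (i + 1) ⊓ V := Submodule.map_subtype_le _ _
  have hB2 : B'.map (Fl n (i + 1) ⊓ V).subtype ⊓ (P n i ⊓ V) = ⊥ := by
    rw [eq_bot_iff]
    rintro _ ⟨⟨x, hx, rfl⟩, hx2⟩
    have h1 : x ∈ (P n i ⊓ V).submoduleOf (Fl n (i + 1) ⊓ V) ⊓ B' := ⟨hx2, hx⟩
    rw [hB'.inf_eq_bot, Submodule.mem_bot] at h1
    rw [h1, map_zero]
    exact Submodule.zero_mem _
  have hB3 : B'.map (Fl n (i + 1) ⊓ V).subtype ⊔ (P n i ⊓ V) = V := by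
    refine le_antisymm (sup_le (hB1.trans inf_le_right) inf_le_right) fun x hx => ?_
    obtain ⟨y, hy, z, hz, rfl⟩ := Submodule.mem_sup.1 (h i hx)
    have h1 : (⟨z, hz⟩ : ↥(Fl n (i + 1) ⊓ V)) ∈ (P n i ⊓ V).submoduleOf (Fl n (i + 1) ⊓ V) ⊔ B' := by
      rw [hB'.sup_eq_top]
      trivial
    obtain ⟨a, ha, c, hc, hac⟩ := Submodule.mem_sup.1 h1
    have h2 : z = (a : H n) + c := (congrArg Subtype.val hac).symm
    rw [h2, ← add_assoc]
    exact Submodule.add_mem _ (Submodule.mem_sup_right (Submodule.add_mem _ hy ha))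
      (Submodule.mem_sup_left ⟨c, hc, rfl⟩)
  have hop := opp_of_compl T hB3 hB2
  have e1 : B'.map (Fl n (i + 1) ⊓ V).subtype ⊓ V = B'.map (Fl n (i + 1) ⊓ V).subtype :=
    inf_eq_left.2 (hB1.trans inf_le_right)
  have e2 : P n i ⊓ V ⊓ V = P n i ⊓ V := inf_eq_left.2 inf_le_right
  have hd : Module.finrank k ↥(P n i ⊓ V ⊓ V) + Module.finrank k ↥(B'.map (Fl n (i + 1) ⊓ V).subtype ⊓ V) =
      Module.finrank k V := by
    have e3 := Submodule.finrank_sup_add_finrank_inf_eq (B'.map (Fl n (i + 1) ⊓ V).subtype) (P n i ⊓ V)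
    rw [hB2, finrank_bot, hB3] at e3
    rw [e1, e2]
    omega
  have h1 := sup_of_opp (FractionRing R) T hV hd (by rw [e1, e2]; exact hop)
  rw [e1, e2] at h1
  exact h1.trans (sup_le_sup (gk_mono _ T hB1) le_rfl)

end MPadcTT
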