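import Pool.Agent.Lib.MP_adc574_ag_TR.B1
import Pool.Agent.Lib.MP_adc574_ag_TR.S
import Pool.Agent.Lib.MP_adc574_ag_TB.G6
import Pool.Agent.Lib.MP_adc574_ag_TB.G7
import Pool.Agent.Lib.MP_adc574_ag_TB.G9

/-! Built subspaces are bigraded -/

set_option autoImplicit false

namespace MPadcTR

open OrdRed OrdRel MPadcTT

universe u v w

private theorem H2_eq {k : Type u} [Field k] {V : Type v} [AddCommGroup V] [Module k V] [FiniteDimensional k V]
    {P F H : Submodule k V} (hF : F = ⊥) (h : Module.finrank k ↥(P ⊓ H) + Module.finrank k ↥(F ⊓ H) = Module.finrank k H) :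
    H ≤ P := by
  rw [hF, bot_inf_eq, finrank_bot, add_zero] at h
  have h1 : P ⊓ H = H := Submodule.eq_of_le_of_finrank_eq inf_le_right h
  rw [← h1]
  exact inf_le_left

/-- Proof. Induction on `Built`, `Fl n i = X.hodge n i`. `weight`: `sem_part`, `hit_large`, `hP.dim`. `image`: `sem_part` for `m = 1`, with `dim 0` from `Compatible` and for `i > 0`: `hodge 1 (i + 1) = ⊥`, so `H 1 μ ≤ P 1 i` by `hP.dim`, `P 1 i = ⊤` by `hH`. `log`: `sem_log`; `dlog m j ≤ hodge m j` by the definitions, `hP.log`.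
`sum`: `sem_sup`. `prod`: `sem_prod` (`X.prod m m' x y z ↔ z = mu m m' x y`). `ker`: `sem_ker`. `perp`: `sem_dim` gives the dimensions for `V`, then `sem_part`. -/
theorem sem_of_built {k : Type u} [Field k] [CharZero k] {n : ℕ} (X : Cover.{u, u} k n)
    [∀ m, FiniteDimensional k (X.DR m)] (C : ∀ m, Cn k (X.DR m)) (hC : ∀ m D x y, X.nabla m D x y ↔ y = (C m).c D x)
    (mu : ∀ m m', X.DR m →ₗ[k] X.DR m' →ₗ[k] X.DR (m + m')) (hpr : ∀ m m' x y z, X.prod m m' x y z ↔ z = mu m m' x y)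
    (hmu : ∀ D n m x y, (C (n + m)).c D (mu n m x y) = mu n m ((C n).c D x) y + mu n m x ((C m).c D y))
    (anti : ∀ m i, X.hodge m (i + 1) ≤ X.hodge m i) (zero : ∀ m, X.hodge m 0 = ⊤) (top : ∀ m i, m < i → X.hodge m i = ⊥)
    (mulF : ∀ m m' i i', ∀ x ∈ X.hodge m i, ∀ y ∈ X.hodge m' i', mu m m' x y ∈ X.hodge (m + m') (i + i'))
    {M : Type w} (H : ∀ m : ℕ, M → Submodule k (X.DR m)) {s : ℕ} (T : Fin s → ∀ m : ℕ, M → Submodule k (X.DR m)) {r : ℕ} (α : Fin r → Module.End k (X.DR 1))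
    (hst : ∀ m μ, Stable (X.nabla m) (H m μ)) (hTs : ∀ l m μ, Stable (X.nabla m) (T l m μ)) (P : ∀ m : ℕ, ℕ → Submodule k (X.DR m)) (hP : ConjugateType X H P)
    (hH : ⨆ μ, H 1 μ = ⊤) (hc : ∀ l, Compatible X (P 1 0) (α l))
    (hT : ∀ l m i μ, T l m μ ≤ P m i ⊓ T l m μ ⊔ X.hodge m (i + 1) ⊓ T l m μ)
    {m : ℕ} {U : Submodule k (X.DR m)} (h : Built X H T α m U)
    {β : ℕ → Type} [∀ m, Fintype (β m)] (b : ∀ m, Module.Basis (β m) k (X.DR m)) :
    Sem C mu b (fun m i => X.hodge m i) P m U := by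
  have mulP : ∀ m m' i i', ∀ x ∈ P m i, ∀ y ∈ P m' i', mu m m' x y ∈ P (m + m') (i + i') :=
    fun m m' i i' x hx y hy => hP.mul m m' i i' x hx y hy _ ((hpr m m' x y _).2 rfl)
  have hcs : ∀ {m : ℕ} {V : Submodule k (X.DR m)}, Stable (X.nabla m) V → ∀ D, ∀ x ∈ V, (C m).c D x ∈ V :=
    fun {m V} hV D x hx => hV D x hx _ ((hC m D x _).2 rfl)
  have key : ∀ {m : ℕ} {V : Submodule k (X.DR m)} (hL : Large X V)
      (_ : ∀ i, Module.finrank k ↥(P m i ⊓ V) + Module.finrank k ↥(X.hodge m (i + 1) ⊓ V) = Module.finrank k V),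
      Sem C mu b (fun m i => X.hodge m i) P m V := by
    intro m V hL hd
    exact sem_part zero top hP.mono V (hcs hL.1) hd
      (fun i => hit_large X (C m) (hC m) V (hcs hL.1) hL (i + 1) (P m i))
  have hortho : ∀ {m m' : ℕ} {A : Submodule k (X.DR m)} {U' : Submodule k (X.DR m')} {x : X.DR m} {p : Prop},
      (p ↔ x ∈ A ∧ ∀ y ∈ U', X.prod m m' x y 0) → (p ↔ x ∈ A ∧ ∀ y ∈ U', mu m m' x y = 0) := by
    intro m m' A U' x p h
    rw [h]
    refine and_congr Iff.rfl (forall_congr' fun y => imp_congr Iff.rfl ?_)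
    rw [hpr]
    exact eq_comm
  induction h with
  | weight m μ hL => exact key hL fun i => hP.dim m i μ
  | image l hproj hL =>
    refine key hL fun i => ?_
    rcases i with _ | i
    · exact (hc l).2 hproj
    · have h1 : X.hodge 1 (i + 1 + 1) = ⊥ := top 1 (i + 1 + 1) (by omega)
      have h2 : P 1 (i + 1) = ⊤ := by
        rw [eq_top_iff, ← hH]
        exact iSup_le fun μ => H2_eq h1 (hP.dim 1 (i + 1) μ)
      rw [h1, h2, top_inf_eq, bot_inf_eq, finrank_bot, add_zero]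
  | rel l m μ => exact sem_rel zero top hP.mono _ (hcs (hTs l m μ)) fun i => hT l m i μ
  | log m j x hx hD =>
    refine sem_log j x ?_ (hP.log m j x hx) fun D => ((hC m D x 0).1 (hD D)).symm
    obtain ⟨c, hcx, hJ⟩ := hx
    exact Submodule.subset_span ⟨c, hcx, fun J hlt => (hJ J).2 (by omega)⟩
  | sum m U V _ _ ih1 ih2 => exact sem_sup ih1 ih2
  | prod m m' U V _ _ ih1 ih2 =>
    have h1 : {z | ∃ x ∈ U, ∃ y ∈ V, X.prod m m' x y z} = {z | ∃ x ∈ U, ∃ y ∈ V, z = mu m m' x y} := by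
      ext z
      simp only [Set.mem_ofPred_eq, hpr]
    unfold products
    rw [h1]
    exact sem_prod mulF mulP ih1 ih2
  | ker m m' ν U V U' _ _ _ hUS hV ih1 ih2 ih3 =>
    exact sem_ker anti mulF hP.mono mulP (hcs (hst (m + m') ν))
      (fun x hx y hy => hUS x hx y hy _ ((hpr m m' x y _).2 rfl)) (fun x => hortho (hV x))
      (fun i => hP.dim (m + m') i ν) ih1 ih2 ih3
  | perp m m' μ ν U V U' _ _ _ hUS hV hUVs hL ih1 ih2 ih3 =>
    obtain ⟨hUV, hs⟩ := hUVs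
    refine key hL fun i => ?_
    exact sem_dim hmu anti mulF hP.mono mulP (hcs (hst m μ)) (hcs hL.1) (hcs (hst (m + m') ν))
      (fun x hx y hy => hUS x hx y hy _ ((hpr m m' x y _).2 rfl)) (fun x => hortho (hV x)) hUV hs
      (fun i => hP.dim m i μ) (fun i => hP.dim (m + m') i ν) ih1 ih2 ih3 i

end MPadcTR
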