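import Pool.Agent.Lib.MP_adc574_ag_EN.Def
import Pool.Agent.Lib.MP_adc574_ag_GP.Def3

/-!
# General position relative to subspaces and to endomorphisms of `H^1` (used in the proof)
-/

set_option autoImplicit false

namespace OrdRel

open OrdRed

universe u v w

variable {k : Type u} [Field k] {n : ℕ} (X : Cover.{u, u} k n) {M : Type w} (H : ∀ m : ℕ, M → Submodule k (X.DR m)) {s : ℕ}
  (T : Fin s → ∀ m : ℕ, M → Submodule k (X.DR m)) {r : ℕ} (α : Fin r → Module.End k (X.DR 1))

/-- General position relative to the `T l m μ` and to the endomorphisms `α l` of `H^1_dR(X)`: the condition `General` is only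
demanded for the filtrations `P` of conjugate type for which `P 1 0` is stable under all the `α l` and has in the image of
every `α l` which is a projector the dimension complementary to that of `F^1`, and which are opposite to the Hodge filtration
on the `T l m μ`: every element of `T l m μ` is the sum of an element of `P m i` and an element of `F^{i+1}` in `T l m μ`. -/
def GeneralRelEnd : Prop :=
  ∀ P : ∀ m : ℕ, ℕ → Submodule k (X.DR m), ConjugateType X H P → (∀ l, Compatible X (P 1 0) (α l)) →
    (∀ l m i μ, T l m μ ≤ P m i ⊓ T l m μ ⊔ X.hodge m (i + 1) ⊓ T l m μ) → InPosition X H P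

end OrdRel
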