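import Pool.Agent.Lib.MP_adc574_ag_TR.B2
import Pool.Agent.Lib.MP_adc574_ag_TR.Gen
import Pool.Agent.Lib.MP_adc574_ag_TB.G10
import Pool.Agent.Lib.MP_adc574_ag_TT.F2
import Pool.Agent.Lib.MP_adc574_ag_TT.N9

/-! General position from large parts -/

set_option autoImplicit false

namespace MPadcTR

open OrdRed OrdRel MPadcTT

universe u v w

theorem generalRelEnd_of_built {k : Type u} [Field k] [CharZero k] {n : ℕ} {I : Ideal (MvPolynomial (Fin n) k)}
    (hI : Homogeneous I) (hs : SmoothProj I) {M : Type w} (H : ∀ m : ℕ, M → Submodule k ((proj I).DR m))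
    (hH : ⨆ μ, H 1 μ = ⊤) {s : ℕ} (T : Fin s → ∀ m : ℕ, M → Submodule k ((proj I).DR m)) {r : ℕ}
    (α : Fin r → Module.End k ((proj I).DR 1)) (hst : ∀ m μ, Stable ((proj I).nabla m) (H m μ))
    (hTs : ∀ l m μ, Stable ((proj I).nabla m) (T l m μ)) (h : HasLargeParts (proj I) H T α) :
    GeneralRelEnd (proj I) H T α := by
  obtain ⟨C, hC, hprod⟩ := exists_conn hI hs
  obtain ⟨hfin, mu, hmu, anti, zero, top, mulF⟩ := lit_facts hI hs
  have hmu' : ∀ D n m x y, (C (n + m)).c D (mu n m x y) = mu n m ((C n).c D x) y + mu n m x ((C m).c D y) :=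
    fun D n m x y => hprod D n m x y _ ((hmu n m x y _).2 rfl) _ _ ((hmu n m _ y _).2 rfl) ((hmu n m x _ _).2 rfl)
  intro P hP hc hT m i μ
  have hV : ∀ D, ∀ x ∈ H m μ, (C m).c D x ∈ H m μ := fun D x hx => hst m μ D x hx _ ((hC m D x _).2 rfl)
  have hsem := sem_of_built (proj I) C hC mu hmu hmu' anti zero top mulF H T α hst hTs P hP hH hc hT
    (h m μ) (fun m => Module.finBasis k ((proj I).DR m))
  intro W hW hω
  refine pos_of_sem hmu' (Fl := fun m i => (proj I).hodge m i) anti hP.mono hV hsem i (hP.dim m i μ) W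
    (fun D ω hω => ?_) hω
  obtain ⟨ω', h1, h2⟩ := hW D ω hω
  exact ⟨ω', h1, fun x => h2 x _ fun l => (hC m D _ _).2 rfl⟩

end MPadcTR
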