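import Pool.Agent.Lib.MP_adc574_ag_EN.Def

/-!
# Ordinary reduction: varieties whose cohomology is built from large parts and from the cohomology of ordinary varieties

* `Stable`, `BigMonodromy`, `PositionAll`, `LargeFor`: conditions for subspaces of a vector space with a connection.
* `Large`, `Built`, `HasLargeParts`: the hypothesis of the theorem.
* `OrdinaryAt`, `GoodPrime`, `DenselyOrdinary`: the conclusion.

In the theorem `T l m μ` is the part of weight `μ` of the image of `H^m_dR(Y_l)`, `X ⊆ Y_l`.
-/

set_option autoImplicit false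

namespace OrdRel

open OrdRed Polynomial

universe u v w

section linear

variable {k : Type u} [Field k] {W : Type v} [AddCommGroup W] [Module k W] (nab : Derivation ℤ k k → W → W → Prop)

/-- The subspace `V` is stable under the connection; `nab D x y` says `y = ∇_D x`. -/
def Stable (V : Submodule k W) : Prop :=
  ∀ D : Derivation ℤ k k, ∀ x ∈ V, ∀ y, nab D x y → y ∈ V

/-- The group `SL(W)` (`B = 0`), `Sp(W)` (`B` nondegenerate and alternating) or `SO(W)` (`B` nondegenerate and symmetric, if
`dim W ≠ 2 d`) of the automorphisms of determinant one which preserve `B` preserves all the horizontal spaces of alternating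
forms on `W`. -/
def BigMonodromy (d : ℕ) : Prop :=
  ∃ B : W →ₗ[k] W →ₗ[k] k,
    ((∀ x y, B x y = 0) ∨ (∀ x, (∀ y, B x y = 0) → x = 0) ∧
      ((∀ x, B x x = 0) ∨ (∀ x y, B y x = B x y) ∧ 2 * d ≠ Module.finrank k W)) ∧
    ∀ (r : ℕ) (A : Submodule k (W [⋀^Fin r]→ₗ[k] k)), Horizontal nab A →
      ∀ ω ∈ A, ∀ g : W →ₗ[k] W, LinearMap.det g = 1 → (∀ x y, B (g x) (g y) = B x y) → ω.compLinearMap g ∈ A

/-- `Position` for all the subspaces `P` of codimension `d`. -/
def PositionAll (d : ℕ) (F : Set W) : Prop :=
  ∀ P : Submodule k W, Module.finrank k P + d = Module.finrank k W → Position nab d F P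

/-- The subspace `V` is large with respect to `F`:
* `F ∩ V` is `0` or `V`; or
* `F ∩ V` is of dimension one, and it is not contained in a stable subspace of `V` different from `V`; or
* `F ∩ V` is of codimension one in `V`, and it does not contain a stable subspace different from `0`; or
* the monodromy of `V` contains `SL(V)`, `Sp(V)` or `SO(V)` (the last if `dim F ∩ V` is not half the dimension of `V`), in
  the sense of `BigMonodromy`; or, most generally,
* every horizontal space of alternating forms on `V` with `dim F ∩ V` arguments which contains a nonzero form killed by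
  a subspace of dimension `dim V - dim F ∩ V` contains a form which does not vanish on `F ∩ V`. -/
def LargeFor (F V : Submodule k W) : Prop :=
  V ⊓ F = ⊥ ∨ V ≤ F ∨
    (Module.finrank k ↥(V ⊓ F) = 1 ∧ ∀ U ≤ V, Stable nab U → V ⊓ F ≤ U → U = V) ∨
    (Module.finrank k ↥(V ⊓ F) + 1 = Module.finrank k V ∧ ∀ U ≤ V ⊓ F, Stable nab U → U = ⊥) ∨
    BigMonodromy (fun D (x y : V) => nab D x y) (Module.finrank k ↥(V ⊓ F)) ∨
    PositionAll (fun D (x y : V) => nab D x y) (Module.finrank k ↥(V ⊓ F)) {x | (x : W) ∈ F}

variable {W' : Type v} [AddCommGroup W'] [Module k W'] {W'' : Type v} [AddCommGroup W''] [Module k W'']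
  (prod : W → W' → W'' → Prop)

/-- The span of the products of the elements of `U` and `U'`; `prod x y z` says `z = x y`. -/
def products (U : Submodule k W) (U' : Submodule k W') : Submodule k W'' :=
  Submodule.span k {z | ∃ x ∈ U, ∃ y ∈ U', prod x y z}

/-- The products of the elements of `U` and `U'` are in `S`. -/
def ProdIn (U : Submodule k W) (U' : Submodule k W') (S : Submodule k W'') : Prop :=
  ∀ x ∈ U, ∀ y ∈ U', ∀ z, prod x y z → z ∈ S

/-- `V` consists of the elements of `U` which are orthogonal to `U'`. -/
def IsPerp (U : Submodule k W) (U' : Submodule k W') (V : Submodule k W) : Prop :=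
  ∀ x, x ∈ V ↔ x ∈ U ∧ ∀ y ∈ U', prod x y 0

/-- `V` is the direct sum of `U` and `U'`. -/
def IsSum (U U' V : Submodule k W) : Prop :=
  U ⊓ U' = ⊥ ∧ U ⊔ U' = V

end linear

variable {k : Type u} [Field k] {n : ℕ} (X : Cover.{u, u} k n)

/-- The subspace `V` of `H^m_dR(X)` is large: it is stable under the Gauss–Manin connection and large with respect to all the
steps of the Hodge filtration. -/
def Large {m : ℕ} (V : Submodule k (X.DR m)) : Prop :=
  Stable (X.nabla m) V ∧ ∀ i : ℕ, LargeFor (X.nabla m) (X.hodge m i) V

variable {M : Type w} (H : ∀ m : ℕ, M → Submodule k (X.DR m)) {s : ℕ}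
  (T : Fin s → ∀ m : ℕ, M → Submodule k (X.DR m)) {r : ℕ} (α : Fin r → Module.End k (X.DR 1))

/-- The subspaces of the `H^m_dR(X)` which are built from large parts, from the `T l m μ` and from horizontal logarithmic
classes, by sums, products and orthogonal complements. -/
inductive Built : ∀ m : ℕ, Submodule k (X.DR m) → Prop
  /-- the part of weight `μ` (the whole `H^m_dR(X)` if there are no weights), if it is large -/
  | weight (m : ℕ) (μ : M) : Large X (H m μ) → Built m (H m μ)
  /-- the image of the projector `α l` of `H^1_dR(X)`, if it is large -/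
  | image (l : Fin r) : (∀ x, α l (α l x) = α l x) → Large X (LinearMap.range (α l)) → Built 1 (LinearMap.range (α l))
  /-- the part of weight `μ` of the image of the cohomology of `Y_l` -/
  | rel (l : Fin s) (m : ℕ) (μ : M) : Built m (T l m μ)
  /-- the line of a horizontal logarithmic class (for example the class of a divisor which is trivial on all the `U_j`, or a
  product of such classes) -/
  | log (m j : ℕ) (x : X.DR m) : x ∈ X.dlog m j → (∀ D, X.nabla m D x 0) → Built m (Submodule.span k {x})
  /-- sums -/
  | sum (m : ℕ) (U V : Submodule k (X.DR m)) : Built m U → Built m V → Built m (U ⊔ V)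
  /-- the span of the products -/
  | prod (m m' : ℕ) (U : Submodule k (X.DR m)) (V : Submodule k (X.DR m')) : Built m U → Built m' V →
      Built (m + m') (products (X.prod m m') U V)
  /-- the elements of `U` orthogonal to `U'`, for the product with values in the built part `H^(m + m')_dR(X)_ν` -/
  | ker (m m' : ℕ) (ν : M) (U V : Submodule k (X.DR m)) (U' : Submodule k (X.DR m')) : Built m U → Built m' U' →
      Built (m + m') (H (m + m') ν) → ProdIn (X.prod m m') U U' (H (m + m') ν) →
      IsPerp (X.prod m m') U U' V → Built m V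
  /-- the orthogonal complement `V` of `U'` in `H^m_dR(X)_μ`, if it is large and `H^m_dR(X)_μ` is the direct sum of `V` and of
  the built subspace `U`, for the product with values in the built part `H^(m + m')_dR(X)_ν` -/
  | perp (m m' : ℕ) (μ ν : M) (U V : Submodule k (X.DR m)) (U' : Submodule k (X.DR m')) : Built m U → Built m' U' →
      Built (m + m') (H (m + m') ν) → ProdIn (X.prod m m') U U' (H (m + m') ν) →
      IsPerp (X.prod m m') (H m μ) U' V → IsSum U V (H m μ) → Large X V → Built m V

/-- All the parts `H^m_dR(X)_μ` are built from large parts, from the `T l m μ` and from horizontal logarithmic classes. -/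
def HasLargeParts : Prop := ∀ (m : ℕ) (μ : M), Built X H T α m (H m μ)

/-- The fibre over the closed point `𝔪` of `Spec A` of the projective scheme with the ideal `I` is smooth and ordinary. -/
def OrdinaryAt {A : Type u} [CommRing A] {n : ℕ} (I : Ideal (MvPolynomial (Fin n) A)) (𝔪 : Ideal A) : Prop :=
  SmoothProj (change I (Ideal.Quotient.mk 𝔪)) ∧ (proj (change I (Ideal.Quotient.mk 𝔪))).Ordinary

/-- `p` is a prime number, `F` modulo `p` is a product of linear factors, and `F^i H^m_dR(X)_μ` and `F^i H^m_dR(X)_(p μ)`
have the same dimension for all `m`, `i` and `μ`, for the projective scheme `X` with the ideal `I`. -/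
def GoodPrime {k : Type u} [Field k] {n : ℕ} (I : Ideal (MvPolynomial (Fin n) k)) {M : Type w} [AddCommGroup M]
    (w : Fin n → M) (F : ℤ[X]) (p : ℕ) : Prop :=
  p.Prime ∧ (F.map (Int.castRingHom (ZMod p))).Splits ∧
    ∀ (m i : ℕ) (μ : M), hodgeDim I w m i (p • μ) = hodgeDim I w m i μ

/-- The closed points of `Spec A` of a characteristic `p` with `G p` over which all the projective schemes with the ideals
`I l` have smooth and ordinary fibres are dense in `Spec A`, for an integral domain `A`. -/
def DenselyOrdinary {A : Type u} [CommRing A] {n s : ℕ} (G : ℕ → Prop) (I : Fin s → Ideal (MvPolynomial (Fin n) A)) : Prop :=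
  ∀ b : A, b ≠ 0 → ∃ (p : ℕ) (𝔪 : Ideal A), G p ∧ 𝔪.IsMaximal ∧ (p : A) ∈ 𝔪 ∧ b ∉ 𝔪 ∧ ∀ l, OrdinaryAt (I l) 𝔪

end OrdRel
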