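import Pool.Agent.Lib.MP_adc574_ag_TR.Int
import Pool.Agent.Lib.MP_adc574_ag_GP.GlGenW
import Pool.Agent.Lib.MP_adc574_ag_GP.BrW
import Pool.Agent.Lib.MP_adc574_ag_GP.R3Gen

/-!
# General position relative to endomorphisms of `H^1` and to subspaces, in coordinates
-/

set_option autoImplicit false
set_option linter.unusedSectionVars false

namespace MPadcGP

universe u v w x

section transport

/-- General position, with the dimension as a variable. -/
private theorem trg1_cast {k : Type u} [Field k] {ι : Type*} [Add ι] {H : ι → Type v}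
    [∀ a, AddCommGroup (H a)]
    [∀ a, Module k (H a)] {nab : ∀ a, Derivation ℤ k k → H a → H a → Prop}
    {Fl : ∀ a, ℕ → Submodule k (H a)} {cup : ∀ a a', H a → H a' → H (a + a') → Prop}
    {lg : ∀ a, ℕ → Set (H a)} {C : (∀ a, ℕ → Submodule k (H a)) → Prop} (h : InGenPos nab Fl cup lg C)
    {P : ∀ a, ℕ → Submodule k (H a)}
    (hP : MPadcGP2.IsConjugateType Fl cup lg P) (hC : C P) (n : ι) (i r : ℕ)
    (hr : Module.finrank k (Fl n (i + 1)) = r)
    (W : Submodule k (H n [⋀^Fin r]→ₗ[k] k)) (hW : IsHorizontal (nab n) W)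
    (hW' : ∃ ω ∈ W, ω ≠ 0 ∧ ∀ x, (∃ u, x u ∈ P n i) → ω x = 0) :
    ∃ ω ∈ W, ∃ x, (∀ u, x u ∈ Fl n (i + 1)) ∧ ω x ≠ 0 := by
  subst hr
  exact h P hP hC n i W hW hW'

/-- Transport of general position along linear equivalences. -/
private theorem trg1_transport {k : Type u} [Field k] {ι : Type*} [Add ι] {H : ι → Type v}
    [∀ n, AddCommGroup (H n)]
    [∀ n, Module k (H n)] {nab : ∀ n, Derivation ℤ k k → H n → H n → Prop}
    {Fl : ∀ n, ℕ → Submodule k (H n)} {cup : ∀ n n', H n → H n' → H (n + n') → Prop}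
    {lg : ∀ n, ℕ → Set (H n)} {C : (∀ a, ℕ → Submodule k (H a)) → Prop} (h : InGenPos nab Fl cup lg C)
    {H' : ι → Type w} [∀ n, AddCommGroup (H' n)]
    [∀ n, Module k (H' n)] {nab' : ∀ n, Derivation ℤ k k → H' n → H' n → Prop}
    {Fl' : ∀ n, ℕ → Submodule k (H' n)} {cup' : ∀ n n', H' n → H' n' → H' (n + n') → Prop}
    {lg' : ∀ n, ℕ → Set (H' n)} {C' : (∀ a, ℕ → Submodule k (H' a)) → Prop} (e : ∀ n, H' n ≃ₗ[k] H n)
    (hFl : ∀ n i x, e n x ∈ Fl n i ↔ x ∈ Fl' n i)
    (hnab : ∀ n D x y, nab n D (e n x) (e n y) → nab' n D x y)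
    (hcup : ∀ n n' x y z, cup n n' (e n x) (e n' y) (e (n + n') z) → cup' n n' x y z)
    (hlg : ∀ (P : ∀ n, ℕ → Submodule k (H' n)), (∀ n j, ∀ x ∈ lg' n j, x ∈ P n j) →
      ∀ n j, ∀ x, e n x ∈ lg n j → x ∈ P n j)
    (hC : ∀ P : ∀ n, ℕ → Submodule k (H' n), C' P → C fun n i => (P n i).map (e n).toLinearMap) :
    InGenPos nab' Fl' cup' lg' C' := by
  intro P hP hCP n i W hW hWP
  have hmap : ∀ n i x, e n x ∈ (P n i).map (e n).toLinearMap ↔ x ∈ P n i := by
    intro n i x
    constructor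
    · rintro ⟨y, hy, hyx⟩
      have h1 : y = x := (e n).injective hyx
      rw [← h1]
      exact hy
    · intro hx
      exact ⟨x, hx, rfl⟩
  have hFl2 : ∀ n i, Fl n i = (Fl' n i).map (e n).toLinearMap := by
    intro n i
    ext x
    obtain ⟨y, rfl⟩ := (e n).surjective x
    rw [hFl]
    constructor
    · intro hy
      exact ⟨y, hy, rfl⟩
    · rintro ⟨y', hy', he⟩
      have h1 : y' = y := (e n).injective he
      rw [← h1]
      exact hy'
  have hfr : ∀ n i, Module.finrank k (Fl n i) = Module.finrank k (Fl' n i) := by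
    intro n i
    rw [hFl2]
    exact LinearEquiv.finrank_map_eq (e n) (Fl' n i)
  have hP' : MPadcGP2.IsConjugateType Fl cup lg fun n i => (P n i).map (e n).toLinearMap := by
    refine ⟨fun n i => Submodule.map_mono (hP.mono n i), fun n i => ?_, ?_, ?_⟩
    · have h1 : Module.finrank k ((P n i).map (e n).toLinearMap) = Module.finrank k (P n i) :=
        LinearEquiv.finrank_map_eq (e n) (P n i)
      rw [h1, hfr, ← (e n).finrank_eq]
      exact hP.dim n i
    · rintro n n' i i' _ ⟨x, hx, rfl⟩ _ ⟨y, hy, rfl⟩ z hz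
      obtain ⟨z, rfl⟩ := (e (n + n')).surjective z
      exact ⟨z, hP.mul n n' i i' x hx y hy z (hcup n n' x y z hz), rfl⟩
    · intro n j x hx
      obtain ⟨x, rfl⟩ := (e n).surjective x
      exact (hmap n j x).2 (hlg P hP.log n j x hx)
  let E := AlternatingMap.domLCongr k k (Fin (Module.finrank k (Fl' n (i + 1)))) k (e n)
  have hE : ∀ ω x, E ω x = ω fun u => (e n).symm (x u) := fun ω x => rfl
  obtain ⟨ω, hω, x, hx, hne⟩ := trg1_cast h hP' (hC P hCP) n i _ (hfr n (i + 1))
    (W.map E.toLinearMap) (by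
      rintro D _ ⟨ω, hω, rfl⟩
      obtain ⟨ω', hω', hD⟩ := hW D ω hω
      refine ⟨E ω', ⟨ω', hω', rfl⟩, fun x y hxy => ?_⟩
      have h1 := hD (fun u => (e n).symm (x u)) (fun u => (e n).symm (y u)) (fun u => hnab n D _ _ (by
        rw [LinearEquiv.apply_symm_apply, LinearEquiv.apply_symm_apply]
        exact hxy u))
      rw [hE, h1]
      change _ = D (E ω x) - ∑ u, E ω (Function.update x u (y u))
      rw [hE]
      congr 1
      refine Finset.sum_congr rfl fun u _ => ?_
      rw [hE]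
      congr 1
      funext v
      rcases eq_or_ne v u with hv | hv
      · subst hv
        rw [Function.update_self, Function.update_self]
      · rw [Function.update_of_ne hv, Function.update_of_ne hv]) (by
      obtain ⟨ω, hω, hω0, hωP⟩ := hWP
      refine ⟨E ω, ⟨ω, hω, rfl⟩, ?_, ?_⟩
      · intro h0
        exact hω0 (E.map_eq_zero_iff.1 h0)
      · rintro x ⟨u, hu⟩
        rw [hE]
        refine hωP _ ⟨u, ?_⟩
        rw [← hmap, LinearEquiv.apply_symm_apply]
        exact hu)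
  obtain ⟨ω, hω, rfl⟩ := hω
  refine ⟨ω, hω, fun u => (e n).symm (x u), fun u => ?_, hne⟩
  rw [← hFl, LinearEquiv.apply_symm_apply]
  exact hx u

end transport

section coordinates

variable {κ : Type u} [Field κ] {n : ℕ} {X : CovD.{u, v} κ n} {M : Type} [AddCommGroup M]
    [Fintype M] [DecidableEq M] {W : GrX X M} {β : ℕ × M → Type} [∀ a, Fintype (β a)]
    {lev : ∀ a, β a → ℕ} {z : ∀ a, β a → X.Ch} (h : IsAdW W lev z)

/-- The component of weight `μ`. -/
private theorem trg1_pH (μ : M) (x : (Σ μ : M, β (1, μ)) → κ) :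
    OrdRed.pH W 1 μ (h.total.eqv 1 x) = h.crd (1, μ) fun b => x ⟨μ, b⟩ := by
  have h1 : (h.total.eqv 1 x : X.HdR 1) = ∑ ν, h.crd (1, ν) fun b => x ⟨ν, b⟩ := by
    rw [h.total.eqv_apply]
    have h2 : h.total.lc 1 x = ∑ ν, h.lc (1, ν) fun b => x ⟨ν, b⟩ := by
      apply Subtype.ext
      change _ = (X.Zc 1).subtype (∑ ν, h.lc (1, ν) fun b => x ⟨ν, b⟩)
      rw [IsAd.lc_coe, map_sum, Fintype.sum_sigma]
      rfl
    rw [h2, map_sum]
    refine Finset.sum_congr rfl fun ν _ => ?_
    rw [h.crd_eq]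
  rw [h1, map_sum, Finset.sum_eq_single μ]
  · rw [OrdRed.pH_of_mem W (h.crd_mem (1, μ) _) μ, if_pos rfl]
  · intro ν _ hν
    rw [OrdRed.pH_of_mem W (h.crd_mem (1, ν) _) μ, if_neg (Ne.symm hν)]
  · intro hμ
    exact absurd (Finset.mem_univ _) hμ

/-- The sum of the first steps in coordinates. -/
private theorem trg1_smW (P : ∀ a, ℕ → Submodule κ (β a → κ)) (x : (Σ μ : M, β (1, μ)) → κ) :
    (h.total.eqv 1 x : X.HdR 1) ∈ OrdRed.smW W (fun a => (P a 0).map (h.eqv a).toLinearMap) 1 ↔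
      ∀ μ, (fun b => x ⟨μ, b⟩) ∈ P (1, μ) 0 := by
  rw [OrdRed.mem_smW_iff]
  refine forall_congr' fun μ => ?_
  rw [trg1_pH h]
  constructor
  · rintro ⟨_, ⟨y, hy, rfl⟩, hyx⟩
    have h1 : h.crd (1, μ) y = h.crd (1, μ) fun b => x ⟨μ, b⟩ := hyx
    rw [← h.crd_injective (1, μ) h1]
    exact hy
  · intro hx
    exact ⟨h.eqv (1, μ) fun b => x ⟨μ, b⟩, ⟨_, hx, rfl⟩, rfl⟩

end coordinates

section dim

private theorem trg1_rel {κ : Type u} [Field κ] {V : Type v} {V' : Type w} [AddCommGroup V] [Module κ V] [AddCommGroup V']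
    [Module κ V'] (E : V ≃ₗ[κ] V') {S P F : Submodule κ V} {S' F' : Submodule κ V'} (hS : S' = S.map E.toLinearMap)
    (hF : F' = F.map E.toLinearMap) (h : S ≤ P ⊓ S ⊔ F ⊓ S) : S' ≤ P.map E.toLinearMap ⊓ S' ⊔ F' ⊓ S' := by
  have hinj : Function.Injective E.toLinearMap := E.injective
  rw [hS, hF, ← Submodule.map_inf _ hinj, ← Submodule.map_inf _ hinj, ← Submodule.map_sup]
  exact Submodule.map_mono h

variable {κ : Type u} [Field κ] {V : Type v} {V' : Type w} [AddCommGroup V] [Module κ V] [AddCommGroup V'] [Module κ V']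

private theorem trg1_finrank (E : V ≃ₗ[κ] V') {S : Submodule κ V} {S' : Submodule κ V'} {f : V →ₗ[κ] V} {f' : V' →ₗ[κ] V'}
    (hS : ∀ x, E x ∈ S' ↔ x ∈ S) (hf : ∀ x, f' (E x) = E (f x)) :
    Module.finrank κ ↥(S' ⊓ LinearMap.range f') = Module.finrank κ ↥(S ⊓ LinearMap.range f) := by
  have h1 : S' ⊓ LinearMap.range f' = (S ⊓ LinearMap.range f).map E.toLinearMap := by
    ext y
    obtain ⟨x, rfl⟩ := E.surjective y
    constructor
    · rintro ⟨h1, ⟨y, hy⟩⟩
      obtain ⟨t, rfl⟩ := E.surjective y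
      rw [hf] at hy
      exact ⟨x, ⟨(hS x).1 h1, ⟨t, E.injective hy⟩⟩, rfl⟩
    · rintro ⟨x', ⟨h1, ⟨t, ht⟩⟩, hx'⟩
      have h2 : x' = x := E.injective hx'
      subst h2
      exact ⟨(hS x').2 h1, ⟨E t, by rw [hf, ht]⟩⟩
  rw [h1]
  exact LinearEquiv.finrank_map_eq E _

end dim

variable {M : Type} [AddCommGroup M] [Fintype M] [DecidableEq M]

/-- As `gen_of_relE`, relative to the images of the cohomology of the `Y_l`. -/
theorem gen_of_relET {β : ℕ × M → Type} [∀ a, Fintype (β a)] [∀ a, DecidableEq (β a)] {lev : ∀ a, β a → ℕ}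
    {h : ℕ → ℕ → ℕ} {k : Type u} [Field k] {A : Subalgebra ℤ k} {n : ℕ}
    {I : Ideal (MvPolynomial (Fin n) A)} {wt : Fin n → M}
    {hI : IsHomog I} {hw : IsWHomog wt I} {z : ∀ a, β a → (prC I).Ch}
    (hD : DatW hI hw lev z h) {N : ℕ} {D : Fin N → Derivation ℤ A A} (hg : Good' A D)
    (V : ∀ l, Lft (prC I) (D l)) (hV : ∀ l, (grP hI hw).IsGr (V l)) {G : ∀ a, Fin N → β a → β a → A}
    {mu : ∀ a a', β a → β a' → β (a + a') → A} {Lg : ∀ a : ℕ × M, ℕ → Set (β a → A)}
    (hR : LinRelW (grP hI hw) z V G mu Lg) (S : ∀ _ _ : ℕ, Set (prC I).Ch)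
    (hSL : ∀ (a : ℕ × M) j, ∀ c ∈ S a.1 j, ∃ g ∈ Lg a j,
      (grP hI hw).P a.2 c - ∑ b, g b • z a b ∈ (prC I).Bc a.1)
    (hS : ∀ m j, ∀ x, IsLogCoc (prC (bI (algebraMap A k) I)) m j x →
          x ∈ Submodule.span k ((prH (algebraMap A k) _).push '' S m j) ⊔ CovD.Bc _ m)
    {r : ℕ} (α : Fin r → Module.End k ((prC (bI (algebraMap A k) I)).HdR 1))
    (al : Fin r → Matrix (Σ μ : M, β (1, μ)) (Σ μ : M, β (1, μ)) A)
    (hal : ∀ l x, α l ((hD.ad k (algebraMap A k)).total.eqv 1 x) =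
      (hD.ad k (algebraMap A k)).total.eqv 1 (((al l).map (algebraMap A k)).mulVecLin x))
    {s : ℕ} {I₀ : Fin s → Ideal (MvPolynomial (Fin n) A)} (hle : ∀ l, I₀ l ≤ I) (hI₀ : ∀ l, IsHomog (I₀ l))
    (hw₀ : ∀ l, IsWHomog wt (I₀ l)) {β₀ : Fin s → ℕ × M → Type} [∀ l a, Fintype (β₀ l a)] [∀ l a, DecidableEq (β₀ l a)]
    {lev₀ : ∀ l a, β₀ l a → ℕ} {z₀ : ∀ l a, β₀ l a → (prC (I₀ l)).Ch} {h₀ : Fin s → ℕ → ℕ → ℕ}
    (hD₀ : ∀ l, DatW (hI₀ l) (hw₀ l) (lev₀ l) (z₀ l) (h₀ l)) {Tv : ∀ l a, β₀ l a → β a → A}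
    (hT : ∀ l a u, (rsH (hle l)).push (z₀ l a u) - ∑ b, Tv l a u b • z a b ∈ (prC I).Bc a.1)
    (hgen : IsGeneralET (grP (hI.map (algebraMap A k)) (hw.map (algebraMap A k))) α
      (fun l => rsH (bI_mono (algebraMap A k) (hle l)))
      (fun l => grP ((hI₀ l).map (algebraMap A k)) ((hw₀ l).map (algebraMap A k)))) :
    EndD.GenT (X := mkLinW lev D G mu Lg hD.bound')
      { Q := M, w := fun μ => ((1 : ℕ), μ), r := r, al := al } { s := s, τ := β₀, Tv := Tv } (algebraMap A k)
      (fun l => ∀ x, α l (α l x) = α l x)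
      (fun l => Module.finrank k ↥(LinearMap.range (α l)) -
        Module.finrank k ↥((prC (bI (algebraMap A k) I)).Fil 1 1 ⊓ LinearMap.range (α l))) := by
  have had := hD.ad k (algebraMap A k)
  let i1 : ∀ a : ℕ × M, AddCommGroup
      ↥((grP (hI.map (algebraMap A k)) (hw.map (algebraMap A k))).HW a.1 a.2) :=
    fun _ => inferInstance
  let i2 : ∀ a : ℕ × M, Module k
      ↥((grP (hI.map (algebraMap A k)) (hw.map (algebraMap A k))).HW a.1 a.2) :=
    fun _ => inferInstance
  refine trg1_transport (H := fun a : ℕ × M =>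
    ↥((grP (hI.map (algebraMap A k)) (hw.map (algebraMap A k))).HW a.1 a.2))
    hgen (fun a => had.eqv a) ?_ ?_ ?_ ?_ ?_
  · intro a i x
    change ((had.eqv a x : _) : (prC (bI (algebraMap A k) I)).HdR a.1) ∈
      (prC (bI (algebraMap A k) I)).Fil a.1 i ↔ _
    rw [had.eqv_coe, had.crd_mem_Fil]
    exact Iff.rfl
  · intro a D' x y hxy
    obtain ⟨α, hα⟩ := hg.der D'
    obtain ⟨V'', hV''⟩ := exists_lft_map hI (algebraMap A k) D V α D' hα
    have h1 := glgenW_nab had V hR.gm (fun a b => (hD.self.mem a b).1) α V'' hV'' hxy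
    have h2 := had.crd_injective a h1
    exact ⟨α, hα, fun b' => congrFun h2 b'⟩
  · intro a a' x y t ht
    exact had.crd_injective (a + a') (glgenW_cup had hR.cup ht)
  · intro P hP a j x hx
    obtain ⟨c, c', hc, hcc', hcx⟩ := hx
    have h1 : (c : (prC (bI (algebraMap A k) I)).Ch) ∈
        Submodule.span k ((prH (algebraMap A k) I).push '' S a.1 j) ⊔ CovD.Bc _ a.1 :=
      hS a.1 j _ hc
    -- the classes of the components of the elements of the span are in `P`
    have h2 : ∀ y ∈ Submodule.span k ((prH (algebraMap A k) I).push '' S a.1 j),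
        ∃ g ∈ P a j, (grP (hI.map (algebraMap A k)) (hw.map (algebraMap A k))).P a.2 y -
          ∑ b, g b • (prH (algebraMap A k) I).push (z a b) ∈
          (prC (bI (algebraMap A k) I)).Bc a.1 := by
      intro y hy
      induction hy using Submodule.span_induction with
      | mem y hy =>
        obtain ⟨c', hc', rfl⟩ := hy
        obtain ⟨g, hgL, hgc⟩ := hSL a j c' hc'
        refine ⟨fun b => algebraMap A k (g b), hP a j _ ⟨g, hgL, rfl⟩, ?_⟩
        have h3 := push_mem_Bc (F := prH (algebraMap A k) I) hgc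
        rw [map_sub, push_lin, (prH_gr (algebraMap A k) hI hw).push_P] at h3
        exact h3
      | zero =>
        refine ⟨0, Submodule.zero_mem _, ?_⟩
        simp only [Pi.zero_apply, zero_smul, Finset.sum_const_zero, sub_zero, map_zero]
        exact Submodule.zero_mem _
      | add y y' _ _ ih ih' =>
        obtain ⟨g, hg1, hg2⟩ := ih
        obtain ⟨g', hg1', hg2'⟩ := ih'
        refine ⟨g + g', Submodule.add_mem _ hg1 hg1', ?_⟩
        have h3 := Submodule.add_mem _ hg2 hg2'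
        simp only [Pi.add_apply, add_smul, Finset.sum_add_distrib, map_add]
        rw [add_sub_add_comm]
        exact h3
      | smul r y _ ih =>
        obtain ⟨g, hg1, hg2⟩ := ih
        refine ⟨r • g, Submodule.smul_mem _ _ hg1, ?_⟩
        have h3 := Submodule.smul_mem _ r hg2
        simp only [Pi.smul_apply, smul_assoc, map_smul]
        rw [← Finset.smul_sum, ← smul_sub]
        exact h3
    obtain ⟨y, hy, y', hy', hyy⟩ := Submodule.mem_sup.1 h1
    obtain ⟨g, hgP, hgy⟩ := h2 y hy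
    have h4 : (c' : (prC (bI (algebraMap A k) I)).Ch) -
        ∑ b, g b • (prH (algebraMap A k) I).push (z a b) ∈
          (prC (bI (algebraMap A k) I)).Bc a.1 := by
      rw [hcc', ← hyy, map_add, add_sub_right_comm]
      exact Submodule.add_mem _ hgy (GrX.P_mem_Bc _ hy' a.2)
    have h5 := had.cl_eq_crd a c' g h4
    rw [hcx] at h5
    rw [had.crd_injective a h5]
    exact hgP
  · rintro P ⟨hE, hRel⟩
    refine ⟨?_, fun l a i => ?_⟩
    swap
    · have e1 := imW_eq_map (hI₀ := hI₀ l) (hI := hI) (hw₀ := hw₀ l) (hw := hw) (hle l) (algebraMap A k)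
        ((hD₀ l).ad k (algebraMap A k)) had (hT l) a
      have e2 : ((prC (bI (algebraMap A k) I)).Fil a.1 (i + 1)).submoduleOf
          ((grP (hI.map (algebraMap A k)) (hw.map (algebraMap A k))).HW a.1 a.2) =
          ((mkLinW lev D G mu Lg hD.bound').fl k a (i + 1)).map (had.eqv a).toLinearMap := by
        ext x
        obtain ⟨y, rfl⟩ := (had.eqv a).surjective x
        constructor
        · intro hy
          exact ⟨y, had.crd_mem_Fil.1 hy, rfl⟩
        · rintro ⟨y', hy', he⟩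
          have h1 : y' = y := (had.eqv a).injective he
          rw [← h1]
          exact had.crd_mem_Fil.2 hy'
      have e3 : (Submodule.span k (Set.range fun u => fun b => algebraMap A k (Tv l a u b)) :
          Submodule k (β a → k)) ≤ P a i ⊓ Submodule.span k (Set.range fun u => fun b => algebraMap A k (Tv l a u b)) ⊔
            (mkLinW lev D G mu Lg hD.bound').fl k a (i + 1) ⊓
              Submodule.span k (Set.range fun u => fun b => algebraMap A k (Tv l a u b)) := hRel l a i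
      exact trg1_rel (had.eqv a) e1 e2 e3
    have hS1 : ∀ x : (Σ μ : M, β (1, μ)) → k, ((had.total.eqv 1 x : (prC (bI (algebraMap A k) I)).HdR 1) ∈
        OrdRed.smW (grP (hI.map (algebraMap A k)) (hw.map (algebraMap A k)))
          (fun a => (P a 0).map (had.eqv a).toLinearMap) 1) ↔
        x ∈ EndD.tot (X := mkLinW lev D G mu Lg hD.bound')
          { Q := M, w := fun μ => ((1 : ℕ), μ), r := r, al := al } P := fun x => trg1_smW had P x
    refine ⟨fun l y hy => ?_, fun l hl => ?_⟩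
    · obtain ⟨x, rfl⟩ := (had.total.eqv 1).surjective y
      rw [hal]
      exact (hS1 _).2 (hE.stab l x ((hS1 x).1 hy))
    · have h1 := hE.dim l hl
      have h2 : Module.finrank k ↥(OrdRed.smW (grP (hI.map (algebraMap A k)) (hw.map (algebraMap A k)))
          (fun a => (P a 0).map (had.eqv a).toLinearMap) 1 ⊓ LinearMap.range (α l)) = _ :=
        trg1_finrank (had.total.eqv 1) hS1 (fun x => hal l x)
      have h3 : Module.finrank k ↥((prC (bI (algebraMap A k) I)).Fil 1 1 ⊓ LinearMap.range (α l)) ≤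
          Module.finrank k ↥(LinearMap.range (α l)) := by
        have := had.total.finite 1
        exact Submodule.finrank_mono inf_le_right
      have h4 : Module.finrank k ↥(EndD.tot (X := mkLinW lev D G mu Lg hD.bound')
          { Q := M, w := fun μ => ((1 : ℕ), μ), r := r, al := al } P ⊓
            LinearMap.range ((al l).map (algebraMap A k)).mulVecLin) =
          Module.finrank k ↥(LinearMap.range (α l)) -
            Module.finrank k ↥((prC (bI (algebraMap A k) I)).Fil 1 1 ⊓ LinearMap.range (α l)) := h1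
      rw [h4] at h2
      change Module.finrank k ↥(OrdRed.smW (grP (hI.map (algebraMap A k)) (hw.map (algebraMap A k)))
          (fun a => (P a 0).map (had.eqv a).toLinearMap) 1 ⊓ LinearMap.range (α l)) + _ = _
      rw [h2]
      exact Nat.sub_add_cancel h3

end MPadcGP
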