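import Pool.Agent.Lib.MP_adc574_ag_EN.F2
import Pool.Agent.Lib.MP_adc574_ag_TR.G1
import Pool.Agent.Lib.MP_adc574_ag_GP.R3Con

/-!
# The linear data with endomorphisms and subspaces over a finitely generated ring
-/

set_option autoImplicit false
set_option linter.unusedSectionVars false

namespace MPadcGP

universe u v w x

section

variable {M : Type} [AddCommGroup M] [Fintype M] [DecidableEq M]

/-- `gen_of_relET` for ideals over `k` which are equal to the base changes. -/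
theorem gen_of_relET' {β : ℕ × M → Type} [∀ a, Fintype (β a)] [∀ a, DecidableEq (β a)] {lev : ∀ a, β a → ℕ}
    {h : ℕ → ℕ → ℕ} {k : Type u} [Field k] {A : Subalgebra ℤ k} {n : ℕ}
    {I : Ideal (MvPolynomial (Fin n) A)} {wt : Fin n → M}
    {hI : IsHomog I} {hw : IsWHomog wt I} {z : ∀ a, β a → (prC I).Ch}
    (hD : DatW hI hw lev z h) {N : ℕ} {D : Fin N → Derivation ℤ A A} (hg : Good' A D)
    (V : ∀ l, Lft (prC I) (D l)) (hV : ∀ l, (grP hI hw).IsGr (V l)) {G : ∀ a, Fin N → β a → β a → A}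
    {mu : ∀ a a', β a → β a' → β (a + a') → A} {Lg : ∀ a : ℕ × M, ℕ → Set (β a → A)}
    (hR : LinRelW (grP hI hw) z V G mu Lg) (S : ∀ _ _ : ℕ, Set (prC I).Ch)
    (hSL : ∀ (a : ℕ × M) j, ∀ c ∈ S a.1 j, ∃ g ∈ Lg a j,
      (grP hI hw).P a.2 c - ∑ b, g b • z a b ∈ (prC I).Bc a.1)
    (hS : ∀ m j, ∀ x, IsLogCoc (prC (bI (algebraMap A k) I)) m j x →
          x ∈ Submodule.span k ((prH (algebraMap A k) _).push '' S m j) ⊔ CovD.Bc _ m)
    {Ik : Ideal (MvPolynomial (Fin n) k)} (hk : bI (algebraMap A k) I = Ik) (hIk : IsHomog Ik) (hwk : IsWHomog wt Ik)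
    (hm : ∀ f ∈ I, MvPolynomial.map (algebraMap A k) f ∈ Ik)
    (had : IsAd (prC Ik) (β := fun m => Σ μ, β (m, μ)) (fun m b => lev (m, b.1) b.2)
      fun m b => (prM (algebraMap A k) hm).push (z (m, b.1) b.2))
    {r : ℕ} (α : Fin r → Module.End k ((prC Ik).HdR 1))
    (al : Fin r → Matrix (Σ μ : M, β (1, μ)) (Σ μ : M, β (1, μ)) A)
    (hal : ∀ l x, α l (had.eqv 1 x) = had.eqv 1 (((al l).map (algebraMap A k)).mulVecLin x))
    {s : ℕ} {I₀ : Fin s → Ideal (MvPolynomial (Fin n) A)} (hle : ∀ l, I₀ l ≤ I) (hI₀ : ∀ l, IsHomog (I₀ l))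
    (hw₀ : ∀ l, IsWHomog wt (I₀ l)) {β₀ : Fin s → ℕ × M → Type} [∀ l a, Fintype (β₀ l a)] [∀ l a, DecidableEq (β₀ l a)]
    {lev₀ : ∀ l a, β₀ l a → ℕ} {z₀ : ∀ l a, β₀ l a → (prC (I₀ l)).Ch} {h₀ : Fin s → ℕ → ℕ → ℕ}
    (hD₀ : ∀ l, DatW (hI₀ l) (hw₀ l) (lev₀ l) (z₀ l) (h₀ l)) {Tv : ∀ l a, β₀ l a → β a → A}
    (hT : ∀ l a u, (rsH (hle l)).push (z₀ l a u) - ∑ b, Tv l a u b • z a b ∈ (prC I).Bc a.1)
    {I₀k : Fin s → Ideal (MvPolynomial (Fin n) k)} (hk₀ : ∀ l, bI (algebraMap A k) (I₀ l) = I₀k l)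
    (hlek : ∀ l, I₀k l ≤ Ik) (hI₀k : ∀ l, IsHomog (I₀k l)) (hw₀k : ∀ l, IsWHomog wt (I₀k l))
    (hgen : IsGeneralET (grP hIk hwk) α (fun l => rsH (hlek l)) (fun l => grP (hI₀k l) (hw₀k l))) :
    EndD.GenT (X := mkLinW lev D G mu Lg hD.bound')
      { Q := M, w := fun μ => ((1 : ℕ), μ), r := r, al := al } { s := s, τ := β₀, Tv := Tv } (algebraMap A k)
      (fun l => ∀ x, α l (α l x) = α l x)
      (fun l => Module.finrank k ↥(LinearMap.range (α l)) -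
        Module.finrank k ↥((prC Ik).Fil 1 1 ⊓ LinearMap.range (α l))) := by
  subst hk
  obtain rfl : (fun l => bI (algebraMap A k) (I₀ l)) = I₀k := funext hk₀
  exact gen_of_relET hD hg V hV hR S hSL hS α al hal hle hI₀ hw₀ hD₀ hT hgen

/-- The linear data with endomorphisms and subspaces: `D` derivations of `A₃`, `J` and the `K l` ideals over `A₃`. -/
def LinPT {k : Type u} [Field k] (Λ : Set k) {A₃ : Subalgebra ℤ k} {N : ℕ} (D : Fin N → Derivation ℤ A₃ A₃) {n : ℕ}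
    (wt : Fin n → M) (r : ℕ) (J : Ideal (MvPolynomial (Fin n) A₃)) {s : ℕ}
    (K : Fin s → Ideal (MvPolynomial (Fin n) A₃)) : Prop :=
  ∃ (hJ : IsHomog J) (hw : IsWHomog wt J) (_ : IsSmoothProj J) (β : ℕ × M → Type) (_ : ∀ a, Fintype (β a))
    (_ : ∀ a, DecidableEq (β a)) (lev : ∀ a, β a → ℕ) (z : ∀ a, β a → (prC J).Ch) (h : ℕ → ℕ → ℕ)
    (hD : DatW hJ hw lev z h) (V : ∀ l, Lft (prC J) (D l)) (G : ∀ a, Fin N → β a → β a → A₃)
    (mu : ∀ a a', β a → β a' → β (a + a') → A₃) (Lg : ∀ a : ℕ × M, ℕ → Set (β a → A₃))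
    (_ : LinRelW (grP hJ hw) z V G mu Lg) (al : Fin r → Matrix (Σ μ : M, β (1, μ)) (Σ μ : M, β (1, μ)) A₃)
    (Id : Fin r → Prop) (d : Fin r → ℕ) (hle : ∀ l, K l ≤ J) (hK : ∀ l, IsHomog (K l)) (hwK : ∀ l, IsWHomog wt (K l))
    (_ : ∀ l, IsSmoothProj (K l)) (β₀ : Fin s → ℕ × M → Type) (_ : ∀ l a, Fintype (β₀ l a))
    (_ : ∀ l a, DecidableEq (β₀ l a)) (lev₀ : ∀ l a, β₀ l a → ℕ) (z₀ : ∀ l a, β₀ l a → (prC (K l)).Ch)
    (h₀ : Fin s → ℕ → ℕ → ℕ) (_ : ∀ l, DatW (hK l) (hwK l) (lev₀ l) (z₀ l) (h₀ l))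
    (Tv : ∀ l a, β₀ l a → β a → A₃),
      (∀ l a u, (rsH (hle l)).push (z₀ l a u) - ∑ b, Tv l a u b • z a b ∈ (prC J).Bc a.1) ∧
      (∀ l, Id l → al l * al l = al l) ∧
      (∀ l, Nonempty (GeoD (prC J) (fun b : Σ μ : M, β (1, μ) => lev (1, b.1) b.2) (fun b => z (1, b.1) b.2)
        {x | (x : k) ∈ Λ} (al l))) ∧
      (∀ l, Id l → d l = Module.finrank k ↥(LinearMap.range ((al l).map (algebraMap A₃ k)).mulVecLin) -
        Module.finrank k ↥(flt (fun b : Σ μ : M, β (1, μ) => lev (1, b.1) b.2) k 1 ⊓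
          LinearMap.range ((al l).map (algebraMap A₃ k)).mulVecLin)) ∧
      EndD.GenT (X := mkLinW lev D G mu Lg hD.bound')
        { Q := M, w := fun μ => ((1 : ℕ), μ), r := r, al := al } { s := s, τ := β₀, Tv := Tv } (algebraMap A₃ k) Id d

/-- Ranks in coordinates. -/
private theorem TR2_ranks {k : Type u} [Field k] {n : ℕ} {X : CovD.{u, v} k n} {β : ℕ → Type} [∀ m, Fintype (β m)]
    [DecidableEq (β 1)] {lev : ∀ m, β m → ℕ} {z : ∀ m, β m → X.Ch} (had : IsAd X lev z) (α : Module.End k (X.HdR 1))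
    (a : Matrix (β 1) (β 1) k) (ha : ∀ x, α (had.eqv 1 x) = had.eqv 1 (a.mulVecLin x)) :
    Module.finrank k ↥(LinearMap.range α) = Module.finrank k ↥(LinearMap.range a.mulVecLin) ∧
      Module.finrank k ↥(X.Fil 1 1 ⊓ LinearMap.range α) =
        Module.finrank k ↥(flt (lev 1) k 1 ⊓ LinearMap.range a.mulVecLin) := by
  have h1 : LinearMap.range α = (LinearMap.range a.mulVecLin).map (had.eqv 1).toLinearMap := by
    ext x
    constructor
    · rintro ⟨y, rfl⟩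
      obtain ⟨y, rfl⟩ := (had.eqv 1).surjective y
      exact ⟨a.mulVecLin y, ⟨y, rfl⟩, (ha y).symm⟩
    · rintro ⟨_, ⟨y, rfl⟩, rfl⟩
      exact ⟨had.eqv 1 y, ha y⟩
  have h2 : X.Fil 1 1 = (flt (lev 1) k 1).map (had.eqv 1).toLinearMap := by
    ext x
    obtain ⟨y, rfl⟩ := (had.eqv 1).surjective x
    rw [had.eqv_mem_Fil]
    constructor
    · intro hy
      exact ⟨y, hy, rfl⟩
    · rintro ⟨y', hy', he⟩
      rw [← (had.eqv 1).injective he]
      exact hy'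
  refine ⟨?_, ?_⟩
  · rw [h1]
    exact LinearEquiv.finrank_map_eq (had.eqv 1) _
  · rw [h1, h2, ← Submodule.map_inf _ (had.eqv 1).injective]
    exact LinearEquiv.finrank_map_eq (had.eqv 1) _

/-- Idempotents in coordinates. -/
private theorem TR2_idem {k : Type u} [Field k] {A : Subalgebra ℤ k} {n : ℕ} {X : CovD.{u, v} k n} {β : ℕ → Type}
    [∀ m, Fintype (β m)] [DecidableEq (β 1)] {lev : ∀ m, β m → ℕ} {z : ∀ m, β m → X.Ch} (had : IsAd X lev z)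
    (α : Module.End k (X.HdR 1)) (a : Matrix (β 1) (β 1) A)
    (ha : ∀ x, α (had.eqv 1 x) = had.eqv 1 ((a.map (algebraMap A k)).mulVecLin x)) (hα : ∀ x, α (α x) = α x) :
    a * a = a := by
  have h1 : (a.map (algebraMap A k)) * (a.map (algebraMap A k)) = a.map (algebraMap A k) := by
    apply Matrix.toLin'.injective
    rw [Matrix.toLin'_apply', Matrix.toLin'_apply', Matrix.mulVecLin_mul]
    refine LinearMap.ext fun x => (had.eqv 1).injective ?_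
    rw [LinearMap.comp_apply, ← ha, ← ha, hα, ha]
  rw [← Matrix.map_mul] at h1
  exact Matrix.map_injective (f := algebraMap A k) Subtype.val_injective h1

theorem fg_iSup {k : Type u} [Field k] {s : ℕ} (B : Fin s → Subalgebra ℤ k) (h : ∀ l, (B l).FG) :
    ∃ C : Subalgebra ℤ k, C.FG ∧ ∀ l, B l ≤ C := by
  refine ⟨⨆ l, B l, ?_, fun l => le_iSup B l⟩
  rw [← Finset.sup_univ_eq_iSup]
  exact Finset.sup_induction (p := Subalgebra.FG) Subalgebra.fg_bot (fun a ha b hb => ha.sup hb) fun l _ => h l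

/-- The linear data with endomorphisms and subspaces in general position. -/
theorem exists_linET {k : Type u} [Field k] [IsAlgClosed k] [CharZero k] (A : Subalgebra ℤ k) (hA : A.FG)
    {n : ℕ} (I : Ideal (MvPolynomial (Fin n) A)) (hI : IsHomog I)
    {Ik : Ideal (MvPolynomial (Fin n) k)} (hk : bI (algebraMap A k) I = Ik) (hIk : IsHomog Ik)
    (hs : IsSmoothProj (bI (algebraMap A k) I)) {wt : Fin n → M}
    (hw : IsWHomog wt (bI (algebraMap A k) I)) (hwk : IsWHomog wt Ik) {r : ℕ}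
    (α : Fin r → Module.End k ((prC Ik).HdR 1)) {Λ : Set k} (hα : ∀ l, GeoK (prC Ik) Λ (α l))
    {s : ℕ} {I₀ : Fin s → Ideal (MvPolynomial (Fin n) A)} (hle : ∀ l, I₀ l ≤ I) (hI₀ : ∀ l, IsHomog (I₀ l))
    (hs₀ : ∀ l, IsSmoothProj (bI (algebraMap A k) (I₀ l))) (hw₀ : ∀ l, IsWHomog wt (bI (algebraMap A k) (I₀ l)))
    {I₀k : Fin s → Ideal (MvPolynomial (Fin n) k)} (hk₀ : ∀ l, bI (algebraMap A k) (I₀ l) = I₀k l)
    (hlek : ∀ l, I₀k l ≤ Ik) (hI₀k : ∀ l, IsHomog (I₀k l)) (hw₀k : ∀ l, IsWHomog wt (I₀k l))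
    (hg : IsGeneralET (grP hIk hwk) α (fun l => rsH (hlek l)) (fun l => grP (hI₀k l) (hw₀k l))) :
    ∃ (A₃ : Subalgebra ℤ k) (h3 : A ≤ A₃) (N : ℕ) (D : Fin N → Derivation ℤ A₃ A₃), Good' A₃ D ∧
      LinPT Λ D wt r (bI (Subalgebra.inclusion h3).toRingHom I)
        (fun l => bI (Subalgebra.inclusion h3).toRingHom (I₀ l)) := by
  classical
  obtain ⟨B₁, hf₁, hB₁⟩ := ev_data A hA I hI hs hw
  obtain ⟨A₁, hA₁def⟩ : ∃ A₁ : Subalgebra ℤ k, A₁ = A ⊔ B₁ := ⟨_, rfl⟩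
  have hfg₁ : A₁.FG := hA₁def ▸ hA.sup hf₁
  have h1 : A ≤ A₁ := hA₁def ▸ le_sup_left
  obtain ⟨hsm₁, hw₁, β, i1, i2, lev, z, h, hD₁⟩ := hB₁ A₁ h1 (hA₁def ▸ le_sup_right)
  obtain ⟨I₁, hI₁def⟩ : ∃ I₁, I₁ = bI (Subalgebra.inclusion h1).toRingHom I := ⟨_, rfl⟩
  have hI₁ : IsHomog (bI (Subalgebra.inclusion h1).toRingHom I) := hI.map _
  have hk₁ : bI (algebraMap A₁ k) (bI (Subalgebra.inclusion h1).toRingHom I) = Ik := by
    rw [← hk, bI_bI]
    rfl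
  have hm₁ : ∀ f ∈ bI (Subalgebra.inclusion h1).toRingHom I, MvPolynomial.map (algebraMap A₁ k) f ∈ Ik := by
    rw [← hk₁]
    exact bI_mem _ _
  have had₁ := isAd_Ik (algebraMap A₁ k) hk₁ hm₁ (hD₁.total.ad k (algebraMap A₁ k))
  choose A₂ hfg₂ hA₂ using fun l => exists_geoD' hfg₁ hI₁ hD₁.total.self hk₁ hm₁ had₁ (hα l)
  obtain ⟨B₃, hf₃, hB₃⟩ := ev_logs A₁ hfg₁ (bI (Subalgebra.inclusion h1).toRingHom I) hI₁ (wt := wt) (by
    rw [hk₁, ← hk]
    exact hs) (by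
    rw [hk₁]
    exact hwk)
  obtain ⟨B₂, hf₂, hle₂⟩ := fg_iSup A₂ hfg₂
  choose B₀ hf₀ hB₀ using fun l => ev_data A hA (I₀ l) (hI₀ l) (hs₀ l) (hw₀ l)
  obtain ⟨B₄, hf₄, hle₄⟩ := fg_iSup B₀ hf₀
  obtain ⟨A₃, hle₃, N, D, hgood⟩ := exists_good' (A₁ ⊔ (B₂ ⊔ (B₃ ⊔ B₄))) (hfg₁.sup (hf₂.sup (hf₃.sup hf₄)))
  have h13 : A₁ ≤ A₃ := le_sup_left.trans hle₃
  have hb2 : ∀ l, A₂ l ≤ A₃ := fun l => (hle₂ l).trans ((le_sup_left.trans le_sup_right).trans hle₃)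
  have hb3 : B₃ ≤ A₃ := ((le_sup_left.trans le_sup_right).trans le_sup_right).trans hle₃
  have hb4 : ∀ l, B₀ l ≤ A₃ := fun l =>
    (hle₄ l).trans (((le_sup_right.trans le_sup_right).trans le_sup_right).trans hle₃)
  have h3 : A ≤ A₃ := h1.trans h13
  refine ⟨A₃, h3, N, D, hgood, ?_⟩
  have hJ : bI (Subalgebra.inclusion h13).toRingHom (bI (Subalgebra.inclusion h1).toRingHom I) =
      bI (Subalgebra.inclusion h3).toRingHom I := by
    rw [bI_bI]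
    rfl
  have hle₀ : ∀ l, bI (Subalgebra.inclusion h3).toRingHom (I₀ l) ≤
      bI (Subalgebra.inclusion h13).toRingHom (bI (Subalgebra.inclusion h1).toRingHom I) := by
    intro l
    rw [hJ]
    exact bI_mono _ (hle l)
  rw [← hJ]
  have hD := hD₁.map (Subalgebra.inclusion h13).toRingHom
  have hsm : IsSmoothProj (bI (Subalgebra.inclusion h13).toRingHom (bI (Subalgebra.inclusion h1).toRingHom I)) :=
    hsm₁.map hI₁ _
  choose S hSf hSl hSs using hB₃ A₃ h13 hb3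
  have hV0 : ∀ l, ∃ V : Lft (prC (bI (Subalgebra.inclusion h13).toRingHom
      (bI (Subalgebra.inclusion h1).toRingHom I))) (D l), (grP (hI₁.map _) (hw₁.map _)).IsGr V := fun l =>
    (grP (hI₁.map _) (hw₁.map _)).exists_isGr (exists_lft (hI₁.map _) hsm (D l)).some
  choose V hV using hV0
  obtain ⟨G, mu, Lg, hR, hSL⟩ := exists_relW hD.self V hV S hSl
  choose al hal hgeo using fun l => hA₂ l A₃ h13 (hb2 l)
  have hk₃ : bI (algebraMap A₃ k) (bI (Subalgebra.inclusion h13).toRingHom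
      (bI (Subalgebra.inclusion h1).toRingHom I)) = Ik := by
    rw [← hk₁, bI_bI]
    rfl
  have hm₃ : ∀ f ∈ bI (Subalgebra.inclusion h13).toRingHom (bI (Subalgebra.inclusion h1).toRingHom I),
      MvPolynomial.map (algebraMap A₃ k) f ∈ Ik := by
    rw [← hk₃]
    exact bI_mem _ _
  have had₃ := isAd_Ik (algebraMap A₃ k) hk₃ hm₃ (hD.total.ad k (algebraMap A₃ k))
  have hzz : (fun (m : ℕ) (b : Σ μ, β (m, μ)) => (prM (algebraMap A₃ k) hm₃).push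
      ((prH (Subalgebra.inclusion h13).toRingHom _).push (z (m, b.1) b.2))) =
      fun (m : ℕ) (b : Σ μ, β (m, μ)) => (prM (algebraMap A₁ k) hm₁).push (z (m, b.1) b.2) := by
    funext m b
    exact prM_push_comp (Subalgebra.inclusion h13).toRingHom (algebraMap A₃ k) (algebraMap A₁ k) rfl
      (bI_mem _ _) hm₃ hm₁ (z (m, b.1) b.2)
  have hal₃ : ∀ l x, α l (had₃.eqv 1 x) = had₃.eqv 1 (((al l).map (algebraMap A₃ k)).mulVecLin x) := by
    intro l x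
    rw [eqv_congr had₃ had₁ hzz 1 x, eqv_congr had₃ had₁ hzz 1 (((al l).map (algebraMap A₃ k)).mulVecLin x)]
    exact hal l x
  have hrk := fun l => TR2_ranks had₃ (α l) ((al l).map (algebraMap A₃ k)) (hal₃ l)
  -- the data of the `Y_l`
  choose hsm₀ hw₀' β₀ j1 j2 lev₀ z₀ h₀ hD₀ using fun l => hB₀ l A₃ h3 (hb4 l)
  choose Tv hTv using fun l => exists_Tv (hle₀ l) (hD₀ l) hD
  refine ⟨hI₁.map _, hw₁.map _, hsm, β, i1, i2, lev, _, h, hD, V, G, mu, Lg, hR, al,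
    fun l => ∀ x, α l (α l x) = α l x,
    fun l => Module.finrank k ↥(LinearMap.range (α l)) -
        Module.finrank k ↥((prC Ik).Fil 1 1 ⊓ LinearMap.range (α l)), hle₀, fun l => (hI₀ l).map _, hw₀', hsm₀, β₀,
    j1, j2, lev₀, z₀, h₀, hD₀, Tv, hTv,
    fun l hl => TR2_idem had₃ (α l) (al l) (hal₃ l) hl, hgeo, fun l _ => ?_, ?_⟩
  · change Module.finrank k ↥(LinearMap.range (α l)) -
        Module.finrank k ↥((prC Ik).Fil 1 1 ⊓ LinearMap.range (α l)) = _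
    rw [(hrk l).1, (hrk l).2]
  · have hk₀₃ : ∀ l, bI (algebraMap A₃ k) (bI (Subalgebra.inclusion h3).toRingHom (I₀ l)) = I₀k l := by
      intro l
      rw [← hk₀ l, bI_bI]
      rfl
    exact gen_of_relET' hD hgood V hV hR S hSL hSs hk₃ hIk hwk hm₃ had₃ α al hal₃ hle₀ (fun l => (hI₀ l).map _) hw₀'
      hD₀ hTv hk₀₃ hlek hI₀k hw₀k hg

end

end MPadcGP
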