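import Pool.Agent.Lib.MP_adc574_ag_TR.U2

/-!
# The theorem U for linear data with endomorphisms and subspaces
-/

set_option autoImplicit false
set_option linter.unusedSectionVars false

namespace MPadcGP

open MPadcCM MPadcGM U3

universe u v w

namespace EndD

/-- As `EndD.key_U`, for the filtrations which are opposite to the Hodge filtration on the subspaces. -/
theorem key_UT {ι : Type} [Add ι] {A : Type u} [CommRing A] {k : Type u} [Field k] [IsAlgClosed k] {j : A →+* k}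
    (hj : Function.Injective j) (X : LinW ι A) (Y : EndD X) (Z : TD X)
    (hgood : ∀ D' : Derivation ℤ k k, ∃ c : Fin X.N → k, ∀ a, D' (j a) = ∑ l, c l * j (X.D l a))
    (hcons : ∀ (n : ι) (c c' : Fin X.N → k),
      (∀ a, ∑ l, c l * j (X.D l a) = ∑ l, c' l * j (X.D l a)) →
        ∀ b b', ∑ l, c l * j (X.G n l b' b) = ∑ l, c' l * j (X.G n l b' b))
    {I : Fin Y.r → Prop} (hI : ∀ l, I l → Y.al l * Y.al l = Y.al l) {d : Fin Y.r → ℕ}
    (hgen : Y.GenT Z j I d) {L : ℕ → Type u} [∀ p, Field (L p)] {φ : ∀ p, A →+* L p} {B : A → ℕ}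
    (hB : ResFields A L φ B) :
    ∃ p₀ : ℕ, ∀ p : ℕ, p.Prime → p₀ < p →
      ∀ δ : Fin X.N → Derivation ℤ (L p) (L p), (∀ l x, δ l (φ p x) = φ p (X.D l x)) →
        ∀ P : ∀ n, ℕ → Submodule (L p) (X.β n → L p), X.IsConj (φ p) P → X.IsStab (φ p) δ P →
          Y.IsEnd (φ p) I d P → Z.IsRel (φ p) P → X.IsOpp P := by
  classical
  obtain ⟨Bd, hBd⟩ := X.bound
  obtain ⟨M, hM⟩ : ∃ M, ∀ n b, X.lev n b < M + 1 := by
    refine ⟨Bd.sup (fun n => Finset.univ.sup (X.lev n)), fun n b => ?_⟩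
    have hn : n ∈ Bd := by
      by_contra h
      exact (hBd n h).false b
    have h1 : X.lev n b ≤ Finset.univ.sup (X.lev n) := Finset.le_sup (Finset.mem_univ b)
    have h2 := Finset.le_sup (f := fun n => Finset.univ.sup (X.lev n)) hn
    exact Nat.lt_succ_of_le (h1.trans h2)
  choose p₀ hp₀ using fun t : ↥Bd × Fin (M + 1) =>
    EndD.key_oneT hj X Y Z hgood hcons hI hgen hB hBd hM t.1 t.2 t.1.2 t.2.2
  refine ⟨Finset.univ.sup p₀, fun p hp hpp δ hδ P hP hst hE hR n i x hxP hxF => ?_⟩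
  by_contra hx0
  obtain ⟨b, hb⟩ := Function.ne_iff.1 hx0
  have hn : n ∈ Bd := by
    by_contra h
    exact (hBd n h).false b
  have hi : i < M + 1 := by
    have h1 : ¬ X.lev n b < i + 1 := fun h => hb (hxF b h)
    have h2 := hM n b
    omega
  exact hx0 (hp₀ (⟨n, hn⟩, ⟨i, hi⟩) p hp
    (lt_of_le_of_lt (Finset.le_sup (f := p₀) (Finset.mem_univ _)) hpp) δ hδ P hP hst hE hR x hxP hxF)

end EndD

end MPadcGP
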