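import Pool.Agent.Lib.MP_adc574_ag_EN.F3
import Pool.Agent.Lib.MP_adc574_ag_TR.F2
import Pool.Agent.Lib.MP_adc574_ag_TR.U3
import Pool.Agent.Lib.MP_adc574_ag_GP.Fin3

/-!
# The final theorem with endomorphisms and subspaces, internal form
-/

set_option autoImplicit false
set_option linter.unusedSectionVars false

namespace MPadcGP

open Polynomial

universe u v w x

theorem exists_hasDat_fam {A : Type u} [CommRing A] [IsDomain A] [CharZero A] [Algebra.FiniteType ℤ A]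
    {n : ℕ} {s : ℕ} {I₀ : Fin s → Ideal (MvPolynomial (Fin n) A)} {I : Ideal (MvPolynomial (Fin n) A)}
    (hI₀ : ∀ l, IsHomog (I₀ l)) (hI : IsHomog I) {k : Type u}
    [Field k] (j : A →+* k) (hj : Function.Injective j) (hs₀ : ∀ l, IsSmoothProj (bI j (I₀ l)))
    (hs : IsSmoothProj (bI j I)) : ∃ a : A, a ≠ 0 ∧ (∀ l, HasDat (I₀ l) a) ∧ HasDat I a := by
  choose c₀ hc₀ haff₀ hdat₀ using fun l => exists_aff (hI₀ l) j hj (hs₀ l)
  obtain ⟨c₁, hc₁, haff₁, hdat₁⟩ := exists_aff hI j hj hs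
  have hu : IsUnit (algebraMap A (Localization.Away ((∏ l, c₀ l) * c₁)) ((∏ l, c₀ l) * c₁)) :=
    IsLocalization.Away.algebraMap_isUnit _
  rw [map_mul] at hu
  have huc₀ := isUnit_of_mul_isUnit_left hu
  have huc₁ := isUnit_of_mul_isUnit_right hu
  have huc : ∀ l, IsUnit (algebraMap A (Localization.Away ((∏ l, c₀ l) * c₁)) (c₀ l)) := fun l =>
    isUnit_of_dvd_unit (map_dvd _ (Finset.dvd_prod_of_mem c₀ (Finset.mem_univ l))) huc₀
  exact ⟨(∏ l, c₀ l) * c₁, mul_ne_zero (Finset.prod_ne_zero_iff.2 fun l _ => hc₀ l) hc₁,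
    fun l => ⟨haff₀ l _ _ (huc l), hdat₀ l _ _ (huc l)⟩, ⟨haff₁ _ _ huc₁, hdat₁ _ _ huc₁⟩⟩

section

variable {M : Type} [AddCommGroup M] [Fintype M] [DecidableEq M]

/-- The final theorem, with endomorphisms and subspaces. -/
theorem core_endT {k : Type u} [Field k] [IsAlgClosed k] [CharZero k] (A : Subalgebra ℤ k) (hA : A.FG)
    {n : ℕ} (I : Ideal (MvPolynomial (Fin n) A)) (hI : IsHomog I)
    (hs : IsSmoothProj (bI (algebraMap A k) I)) {wt : Fin n → M}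
    (hw : IsWHomog wt (bI (algebraMap A k) I)) {r : ℕ}
    (α : Fin r → Module.End k ((prC (bI (algebraMap A k) I)).HdR 1)) {F : ℤ[X]} (hF : F ≠ 0)
    (hα : ∀ l, GeoK (prC (bI (algebraMap A k) I)) {x | aeval x F = 0} (α l))
    {s : ℕ} {I₀ : Fin s → Ideal (MvPolynomial (Fin n) A)} (hle : ∀ l, I₀ l ≤ I) (hI₀ : ∀ l, IsHomog (I₀ l))
    (hs₀ : ∀ l, IsSmoothProj (bI (algebraMap A k) (I₀ l))) (hw₀ : ∀ l, IsWHomog wt (bI (algebraMap A k) (I₀ l)))
    (hg : IsGeneralET (grP (hI.map (algebraMap A k)) hw) α (fun l => rsH (bI_mono (algebraMap A k) (hle l)))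
      (fun l => grP ((hI₀ l).map (algebraMap A k)) (hw₀ l))) :
    ∃ a : A, a ≠ 0 ∧ ∃ p₀ : ℕ, ∀ p : ℕ, p₀ ≤ p → p.Prime → (F.map (Int.castRingHom (ZMod p))).Splits →
      (∀ (m i : ℕ) (μ : M), Module.finrank k ↥((prC (bI (algebraMap A k) I)).Fil m i ⊓
        (grP (hI.map (algebraMap A k)) hw).HW m (p • μ)) =
          Module.finrank k ↥((prC (bI (algebraMap A k) I)).Fil m i ⊓
            (grP (hI.map (algebraMap A k)) hw).HW m μ)) →
      ∀ 𝔓 ∈ (Ideal.span {(p : A)}).minimalPrimes,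
        (∀ l, ∃ 𝔪 : Ideal A, 𝔪.IsMaximal ∧ 𝔓 ≤ 𝔪 ∧ a ∉ 𝔪 ∧
          (prC (bI (Ideal.Quotient.mk 𝔪) (I₀ l))).IsBlochKatoOrdinary) → IsDenseOrd I 𝔓 := by
  classical
  have ft : ∀ A' : Subalgebra ℤ k, A'.FG → Algebra.FiniteType ℤ A' := fun A' h =>
    (Subalgebra.fg_iff_finiteType A').1 h
  have noe : ∀ A' : Subalgebra ℤ k, A'.FG → IsNoetherianRing A' := fun A' h =>
    have := ft A' h
    Algebra.FiniteType.isNoetherianRing ℤ A'
  have cz : ∀ A' : Subalgebra ℤ k, CharZero A' := fun A' =>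
    ⟨fun a b h => by
      have h1 := congrArg (algebraMap A' k) h
      rw [map_natCast, map_natCast] at h1
      exact Nat.cast_injective h1⟩
  have hnA := noe A hA
  have hfA := ft A hA
  have hcA := cz A
  obtain ⟨a, ha0, hd₀, hd⟩ := exists_hasDat_fam hI₀ hI (algebraMap A k) Subtype.val_injective hs₀ hs
  obtain ⟨A₃, h3, N, D, hgood, hJ₃, hw₃, hsm₃, β, i1, i2, lev, z, h, hD, V, G, mu, Lg, hR, al, Id, d, hle₃, hK₃,
    hwK₃, hsK₃, β₀, j1, j2, lev₀, z₀, h₀, hD₀, Tv, hTv, hId, hgeo,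
    hdd, hGen⟩ := exists_linET A hA I hI rfl (hI.map (algebraMap A k)) hs hw hw α hα hle hI₀ hs₀ hw₀ (fun _ => rfl)
      (fun l => bI_mono (algebraMap A k) (hle l)) (fun l => (hI₀ l).map (algebraMap A k)) hw₀ hg
  replace hgeo := fun l => (hgeo l).some
  have hft₃ := ft A₃ hgood.fg
  have hn₃ := noe A₃ hgood.fg
  have hc₃ := cz A₃
  obtain ⟨p₁, hover⟩ := exists_over A A₃ (Subalgebra.inclusion h3).toRingHom
    (Subalgebra.inclusion_injective h3)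
  obtain ⟨BA, hBA⟩ := exists_resB A
  obtain ⟨L, iL, φ, B, hB, hBb⟩ := exists_family3 A₃
    (fun p 𝔔 => 𝔔.comap (Subalgebra.inclusion h3).toRingHom ∈ (Ideal.span {(p : A)}).minimalPrimes ∧
      (∀ l, ∃ 𝔪 : Ideal A, 𝔪.IsMaximal ∧ 𝔔.comap (Subalgebra.inclusion h3).toRingHom ≤ 𝔪 ∧ a ∉ 𝔪 ∧
        (prC (bI (Ideal.Quotient.mk 𝔪) (I₀ l))).IsBlochKatoOrdinary) ∧
      ¬ IsDenseOrd I (𝔔.comap (Subalgebra.inclusion h3).toRingHom))
  obtain ⟨t, ht⟩ := hgood.dual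
  obtain ⟨p₀, hp₀⟩ := EndD.key_UT (j := algebraMap A₃ k) Subtype.val_injective
    (mkLinW lev D G mu Lg hD.bound')
    { Q := M, w := fun μ => ((1 : ℕ), μ), r := r, al := al } { s := s, τ := β₀, Tv := Tv } hgood.der
    (fun m c c' hcc b₁ b₂ => by
      rw [coef_unique ht hcc]) hId hGen hB
  refine ⟨a, ha0, p₀ + B 0 + BA 0 + BA a + p₁ + Fintype.card M + (∑ l, B (hgeo l).dt) + F.leadingCoeff.natAbs + 1,
    fun p hp hprime hspl hdimk 𝔓 h𝔓 hY => ?_⟩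
  by_contra hbad
  have hfact : Fact p.Prime := ⟨hprime⟩
  obtain ⟨𝔔₀, h𝔔₀, h𝔔₀c⟩ := hover p hprime (by omega) 𝔓 h𝔓
  obtain ⟨𝔔, h𝔔, ⟨hbad1, hbad3, hbad2⟩, hker, Λ, iΛ, bb, hbb⟩ := hBb p hprime (by omega)
    ⟨𝔔₀, h𝔔₀, by rw [h𝔔₀c]; exact h𝔓, by rw [h𝔔₀c]; exact hY, by rw [h𝔔₀c]; exact hbad⟩
  have hcp : CharP (L p) p := hB.char p hprime (by omega)
  have hKK : ∀ 𝔓 ∈ (Ideal.span {(p : A)}).minimalPrimes, ∀ (K : Type u) [Field K] (φ : A →+* K),
      RingHom.ker φ = 𝔓 → (∀ x : K, ∃ a b : A, φ b ≠ 0 ∧ x = φ a / φ b) → CharP K p ∧ φ a ≠ 0 ∧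
        ∃ (Λ : Type) (_ : Fintype Λ) (b : Λ → K), PBas p b := by
    intro 𝔓 h𝔓 K _ φK hk hf
    obtain ⟨h1, -, h2, h3⟩ := hBA p hprime (by omega) 𝔓 h𝔓 K φK hk hf
    exact ⟨h1, h2 a ha0 (by omega), h3⟩
  have hoppL₀ : ∀ l, IsOppC (prC (bI (φ p) (bI (Subalgebra.inclusion h3).toRingHom (I₀ l)))) := by
    intro l
    obtain ⟨𝔪, h𝔪, hle𝔪, ha𝔪, hbk⟩ := hbad3 l
    exact (dense_of_bad (Subalgebra.inclusion h3).toRingHom (hI₀ l) hI ha0 (hd₀ l) hd
      ⟨𝔪, h𝔪, ha𝔪, hbk, hbad1, hle𝔪, hbad2⟩ (φ p) hker hbb hKK).1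
  apply hbad2
  refine dense_of_opp' (p := p) (Subalgebra.inclusion h3).toRingHom hI ha0 hd hbad1 rfl (φ p) hker hKK ?_
  have hdim₀ : ∀ l, DimC (prC (bI (φ p) (bI (Subalgebra.inclusion h3).toRingHom (I₀ l)))) := fun l m i =>
    conj_dim hbb ((hK₃ l).map _) ((hsK₃ l).map (hK₃ l) (φ p))
      (fun q m => ((hD₀ l).hodge (L p) (φ p) q m).1)
      (dat_sum (hK₃ l) (hsK₃ l) (hD₀ l).total (φ p)) m i
  have hMp : Function.Injective fun μ : M => p • μ := smul_injective_of_lt hprime (by omega)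
  have hIk : bI (algebraMap A₃ k) (bI (Subalgebra.inclusion h3).toRingHom I) = bI (algebraMap A k) I := by
    rw [bI_bI]
    rfl
  have hdimW := dimCW_of (hI.map _) hw₃ hsm₃ hD hIk (hI.map _) hw (φ p) hbb hMp hdimk
  choose δ hδ using fun l => hB.der p hprime (by omega) (D l)
  have hF0 : F.map (Int.castRingHom (ZMod p)) ≠ 0 := by
    intro h0
    have h1 : (Int.castRingHom (ZMod p)) F.leadingCoeff = 0 := by
      have h2 := congrArg (fun q : (ZMod p)[X] => q.coeff F.natDegree) h0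
      simpa [Polynomial.coeff_map] using h2
    rw [eq_intCast, ZMod.intCast_zmod_eq_zero_iff_dvd] at h1
    have h3 : p ∣ F.leadingCoeff.natAbs := Int.natCast_dvd.1 h1
    have h4 : F.leadingCoeff.natAbs ≠ 0 := Int.natAbs_ne_zero.2 (Polynomial.leadingCoeff_ne_zero.2 hF)
    have h5 := Nat.le_of_dvd (Nat.pos_of_ne_zero h4) h3
    omega
  have hend := con_end (D := D) (G := G) (mu := mu) (Lg := Lg) hsm₃ hD hId hgeo hdd (φ p) hbb
    (fun x hx => root_pow hF0 hspl (by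
      have h1 : aeval (x : A₃) F = 0 := by
        apply Subtype.val_injective
        have h2 : ((aeval (x : A₃) F : A₃) : k) = aeval (x : k) F :=
          (Polynomial.aeval_algebraMap_apply k x F).symm
        rw [h2]
        exact hx
      have h3 : F.eval₂ (Int.castRingHom (L p)) (φ p x) = φ p (aeval x F) := by
        rw [Polynomial.aeval_def, Polynomial.hom_eval₂]
        congr 1
        exact RingHom.ext_int _ _
      rw [h3, h1, map_zero]))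
    (fun l => hB.ne p hprime (by omega) _ (hgeo l).det (by
      have h1 : B (hgeo l).dt ≤ ∑ l, B (hgeo l).dt :=
        Finset.single_le_sum (f := fun l => B (hgeo l).dt) (fun _ _ => Nat.zero_le _) (Finset.mem_univ l)
      omega))
  have hopp' := hp₀ p hprime (by omega) δ hδ (fun a i => (hD.ad (L p) (φ p)).con a i)
    (con_conjW hD V hR (φ p) hdimW) (con_stabW hD V hR (φ p) δ hδ) hend
    (fun l b i u => con_rel (hle₃ l) (hD₀ l) hD (hTv l) (φ p) (hoppL₀ l) (hdim₀ l) b i u)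
  exact oppC_of_weights (hD.ad (L p) (φ p)) fun a i c hc1 hc2 => hopp' a i c hc1 hc2

end

end MPadcGP
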