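import Pool.Agent.Lib.MP_adc574_ag_EN.Int
import Pool.Agent.Lib.MP_adc574_ag_GP.Parts3

/-!
# Endomorphisms of `H^1` and subspaces: the internal definitions
-/

set_option autoImplicit false
set_option linter.unusedSectionVars false

namespace MPadcGP

universe u v w x

section coordinates

variable {ι : Type} [Add ι] {A : Type u} [CommRing A]

/-- Vectors which generate subspaces of the spaces of the linear data. -/
structure TD (X : LinW ι A) where
  /-- The number of the families of subspaces. -/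
  s : ℕ
  /-- The index sets of the generators. -/
  τ : Fin s → ι → Type
  [fτ : ∀ l t, Fintype (τ l t)]
  /-- The generators. -/
  Tv : ∀ l t, τ l t → X.β t → A

attribute [instance] TD.fτ

namespace TD

variable {X : LinW ι A} (Z : TD X) {E : Type v} [Field E] (φ : A →+* E)

/-- The filtrations are opposite to the Hodge filtration on the subspaces. -/
def IsRel (P : ∀ t, ℕ → Submodule E (X.β t → E)) : Prop :=
  ∀ l t (i : ℕ) (u : Z.τ l t), ∃ s : Z.τ l t → E, (∑ v, s v • fun b => φ (Z.Tv l t v b)) ∈ P t i ∧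
    ((fun b => φ (Z.Tv l t u b)) - ∑ v, s v • fun b => φ (Z.Tv l t v b)) ∈ X.fl E t (i + 1)

/-- The subspaces. -/
def sub (l : Fin Z.s) (t : ι) : Submodule E (X.β t → E) :=
  Submodule.span E (Set.range fun u => fun b => φ (Z.Tv l t u b))

end TD

/-- The linear data are in general position over `k`, for the filtrations with the property `IsEnd` which are opposite to the
Hodge filtration on the subspaces. -/
def EndD.GenT {X : LinW ι A} (Y : EndD X) (Z : TD X) {k : Type u} [Field k]
    (j : A →+* k) (I : Fin Y.r → Prop) (d : Fin Y.r → ℕ) : Prop :=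
  InGenPos (X.nabk j) (fun t i => X.fl k t i) (fun s t x y z => z = X.mul j s t x y)
    (fun t i => {x | ∃ g ∈ X.Lg t i, x = fun b => j (g b)})
    (fun P => Y.IsEnd j I d P ∧ ∀ l t i, Z.sub j l t ≤ P t i ⊓ Z.sub j l t ⊔ X.fl k t (i + 1) ⊓ Z.sub j l t)

end coordinates

section general

variable {k : Type u} [Field k] {n : ℕ} {X : CovD.{u, v} k n} {M : Type} [AddCommGroup M] [Fintype M] [DecidableEq M]

/-- The cohomology algebra is in general position relative to the endomorphisms `α l` of `H^1` and to the images of the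
cohomology of the `X₀ l`. -/
def IsGeneralET (W : GrX X M) {r : ℕ} (α : Fin r → Module.End k (X.HdR 1)) {s : ℕ} {X₀ : Fin s → CovD.{u, v} k n}
    (F : ∀ l, CovD.Hm (RingHom.id k) (X₀ l) X) (W₀ : ∀ l, GrX (X₀ l) M) : Prop :=
  letI : ∀ a : ℕ × M, AddCommGroup ↥(W.HW a.1 a.2) := fun _ => inferInstance
  letI : ∀ a : ℕ × M, Module k ↥(W.HW a.1 a.2) := fun _ => inferInstance
  InGenPos (H := fun a : ℕ × M => ↥(W.HW a.1 a.2))
    (fun a D x y => X.gaussManin a.1 D x y) (fun a i => (X.Fil a.1 i).submoduleOf (W.HW a.1 a.2))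
    (fun a b x y z => X.cupRel a.1 b.1 x y z) (fun a j => W.logW a.1 a.2 j)
    (fun P => ((∀ l, ∀ x ∈ OrdRed.smW W (fun a => P a 0) 1, α l x ∈ OrdRed.smW W (fun a => P a 0) 1) ∧
      ∀ l, (∀ x, α l (α l x) = α l x) →
        Module.finrank k ↥(OrdRed.smW W (fun a => P a 0) 1 ⊓ LinearMap.range (α l)) +
          Module.finrank k ↥(X.Fil 1 1 ⊓ LinearMap.range (α l)) = Module.finrank k ↥(LinearMap.range (α l))) ∧
      ∀ l a i, imW (F l) (W₀ l) W a ≤ P a i ⊓ imW (F l) (W₀ l) W a ⊔
        (X.Fil a.1 (i + 1)).submoduleOf (W.HW a.1 a.2) ⊓ imW (F l) (W₀ l) W a)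

end general

end MPadcGP
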