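import Pool.Agent.Lib.MP_adc574_ag_TR.F3
import Pool.Agent.Lib.MP_adc574_ag_TR.G2
import Pool.Agent.Lib.MP_adc574_ag_TR.B3
import Pool.Agent.Lib.MP_adc574_ag_TB.H4
import Pool.Agent.Lib.MP_adc574_ag_EN.D2
import Pool.Agent.Lib.MP_adc574_ag_GP.Fin4
import Pool.Agent.Lib.MP_adc574_ag_GP.BrG

/-!
# The final theorem with endomorphisms and subspaces
-/

set_option autoImplicit false
set_option linter.unusedSectionVars false

namespace MPadcGP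

open Polynomial

universe u v w x

section

variable {M : Type} [AddCommGroup M] [Fintype M] [DecidableEq M]

/-- The final theorem with endomorphisms and subspaces, open form. -/
theorem open_endT {k : Type u} [Field k] [IsAlgClosed k] [CharZero k] (A : Subalgebra ℤ k) (hA : A.FG)
    {n : ℕ} (I : Ideal (MvPolynomial (Fin n) A)) (hI : IsHomog I)
    (hs : IsSmoothProj (bI (algebraMap A k) I)) {wt : Fin n → M}
    (hw : IsWHomog wt (bI (algebraMap A k) I)) {r : ℕ}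
    (α : Fin r → Module.End k ((prC (bI (algebraMap A k) I)).HdR 1)) {F : ℤ[X]} (hF : F ≠ 0)
    (hα : ∀ l, GeoK (prC (bI (algebraMap A k) I)) {x | aeval x F = 0} (α l))
    {s : ℕ} {I₀ : Fin s → Ideal (MvPolynomial (Fin n) A)} (hle : ∀ l, I₀ l ≤ I) (hI₀ : ∀ l, IsHomog (I₀ l))
    (hs₀ : ∀ l, IsSmoothProj (bI (algebraMap A k) (I₀ l))) (hw₀ : ∀ l, IsWHomog wt (bI (algebraMap A k) (I₀ l)))
    (hg : IsGeneralET (grP (hI.map (algebraMap A k)) hw) α (fun l => rsH (bI_mono (algebraMap A k) (hle l)))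
      (fun l => grP ((hI₀ l).map (algebraMap A k)) (hw₀ l))) :
    ∃ a : A, a ≠ 0 ∧ ∀ b : A, b ≠ 0 → ∃ p₀ : ℕ, ∀ p : ℕ, p₀ ≤ p → p.Prime →
      (F.map (Int.castRingHom (ZMod p))).Splits →
      (∀ (m i : ℕ) (μ : M), Module.finrank k ↥((prC (bI (algebraMap A k) I)).Fil m i ⊓
        (grP (hI.map (algebraMap A k)) hw).HW m (p • μ)) =
          Module.finrank k ↥((prC (bI (algebraMap A k) I)).Fil m i ⊓
            (grP (hI.map (algebraMap A k)) hw).HW m μ)) →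
      (∃ 𝔓, 𝔓 ∈ (Ideal.span {(p : A)}).minimalPrimes) ∧ ∀ 𝔓 ∈ (Ideal.span {(p : A)}).minimalPrimes,
        (∀ l, ∃ 𝔪 : Ideal A, 𝔪.IsMaximal ∧ 𝔓 ≤ 𝔪 ∧ a ∉ 𝔪 ∧
          (prC (bI (Ideal.Quotient.mk 𝔪) (I₀ l))).IsBlochKatoOrdinary) →
        (∃ 𝔫 : Ideal A, 𝔫.IsMaximal ∧ 𝔓 ≤ 𝔫 ∧ b ∉ 𝔫 ∧ IsSmoothProj (bI (Ideal.Quotient.mk 𝔫) I) ∧
          (prC (bI (Ideal.Quotient.mk 𝔫) I)).IsBlochKatoOrdinary) ∧ IsOpenOrd I 𝔓 := by
  have hfA : Algebra.FiniteType ℤ A := (Subalgebra.fg_iff_finiteType A).1 hA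
  have hcA : CharZero A := ⟨fun a b h => by
      have h1 := congrArg (algebraMap A k) h
      rw [map_natCast, map_natCast] at h1
      exact Nat.cast_injective h1⟩
  obtain ⟨a, ha0, p₀, hp₀⟩ := core_endT A hA I hI hs hw α hF hα hle hI₀ hs₀ hw₀ hg
  obtain ⟨c, hc0, -, hdc⟩ := exists_hasDat hI hI (algebraMap A k) Subtype.val_injective hs hs
  obtain ⟨BA, hBA⟩ := exists_resB A
  obtain ⟨L, iL, φ, B, hB, -⟩ := exists_resFields' A
  refine ⟨a, ha0, fun b hb => ⟨p₀ + BA 0 + BA c + BA b + B 0 + 1, fun p hp hprime hspl hdimk => ?_⟩⟩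
  have hfact : Fact p.Prime := ⟨hprime⟩
  refine ⟨?_, fun 𝔓 h𝔓 hY => ?_⟩
  · have hcp : CharP (L p) p := hB.char p hprime (by omega)
    have hkp : (RingHom.ker (φ p)).IsPrime := RingHom.ker_isPrime (φ p)
    have hle : Ideal.span {(p : A)} ≤ RingHom.ker (φ p) := by
      rw [Ideal.span_singleton_le_iff_mem, RingHom.mem_ker, map_natCast]
      exact CharP.cast_eq_zero (L p) p
    obtain ⟨𝔓, h𝔓, -⟩ := Ideal.exists_minimalPrimes_le hle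
    exact ⟨𝔓, h𝔓⟩
  have hpr : 𝔓.IsPrime := h𝔓.1.1
  have hp𝔓 : (p : A) ∈ 𝔓 := h𝔓.1.2 (Ideal.mem_span_singleton_self _)
  obtain ⟨hcK, h0b, hne, Λ, iΛ, bb, hbb⟩ := hBA p hprime (by omega) 𝔓 h𝔓 (FractionRing (A ⧸ 𝔓)) _ (frac_ker 𝔓)
    (frac_surj 𝔓)
  have hb𝔓 : b ∉ 𝔓 := by
    intro h
    apply hne b hb (by omega)
    rw [← RingHom.mem_ker, frac_ker]
    exact h
  have hcφ := hne c hc0 (by omega)
  have hd : IsDenseOrd I 𝔓 := hp₀ p (by omega) hprime hspl hdimk 𝔓 h𝔓 hY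
  have hop : IsOpenOrd I 𝔓 := by
    have hopp : IsOppC (prC (bI ((algebraMap (A ⧸ 𝔓) (FractionRing (A ⧸ 𝔓))).comp (Ideal.Quotient.mk 𝔓)) I)) := by
      obtain ⟨hs', β, i1, i2, lev, z, h, hD⟩ := hdc
      exact opp_of_dense hI hc0 hs' hD hd _ (frac_ker 𝔓) (frac_surj 𝔓) hcφ
    exact open_of_opp (p := p) hI hc0 hdc _ (frac_ker 𝔓) (frac_surj 𝔓) hbb hcφ hopp
  refine ⟨?_, hop⟩
  obtain ⟨f, hf, hall⟩ := hop
  have hbf : b * f ∉ 𝔓 := by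
    intro h
    rcases hpr.mem_or_mem h with h | h
    · exact hb𝔓 h
    · exact hf h
  obtain ⟨𝔫, h𝔫, hle'', hbf𝔫⟩ := exists_max_not_mem (p := p) 𝔓 hp𝔓 _ hbf
  exact ⟨𝔫, h𝔫, hle'', fun h => hbf𝔫 (Ideal.mul_mem_right _ _ h),
    hall 𝔫 h𝔫 hle'' fun h => hbf𝔫 (Ideal.mul_mem_left _ _ h)⟩

end

end MPadcGP
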