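import Pool.Agent.Lib.MP_adc574_ag_TR.R1
import Pool.Agent.Lib.MP_adc574_ag_GP.BrX

/-!
# The parts of the cohomology are stable under the Gauss–Manin connection

`stable_HC`: a lift of weight `0` of the derivation (`exists_isGr`) preserves the weights (`P_Gm`). `stable_part`: the same for the
definition. `stable_inf`: intersections of stable subspaces are stable.
-/

set_option autoImplicit false

namespace MPadcTR

open MPadcGP MPadcTT OrdRed OrdRel

universe u v

variable {k : Type u} [Field k] {n : ℕ} {M : Type} [AddCommGroup M]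

theorem stable_HC {X : CovD.{u, u} k n} [Fintype M] [DecidableEq M] (W : GrX X M)
    (hV : ∀ D : Derivation ℤ k k, Nonempty (Lft X D)) (m : ℕ) (μ : M) : Stable ((cov X).nabla m) (HC W m μ) := by
  intro D x hx y hy
  obtain ⟨V, hV⟩ := W.exists_isGr (hV D).some
  obtain ⟨x, ⟨c, hc, rfl⟩, rfl⟩ := hx
  obtain ⟨y, rfl⟩ := (cmp X m).surjective y
  have h1 : X.gaussManin m D (X.cl m c) y := (nabla_iff V).1 hy
  have h2 : X.gaussManin m D (X.cl m c) (X.cl m ⟨V.Gm (c : X.Ch), V.Gm_mem_Zc c.2⟩) := ⟨V, c, _, rfl, rfl, rfl⟩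
  rw [gaussManin_unique h1 h2]
  refine ⟨_, ⟨⟨V.Gm (c : X.Ch), V.Gm_mem_Zc c.2⟩, ?_, rfl⟩, rfl⟩
  have h3 : W.P μ (c : X.Ch) = c := hc
  change W.P μ (V.Gm (c : X.Ch)) = V.Gm (c : X.Ch)
  rw [W.P_Gm hV μ c.2.1.1, h3]

/-- The part of weight `μ` is stable under the Gauss–Manin connection. -/
theorem stable_part [Finite M] {w : Fin n → M} {I : Ideal (MvPolynomial (Fin n) k)} (hI : Homogeneous I)
    (hs : SmoothProj I) (hw : WeightHomogeneous I w) (m : ℕ) (μ : M) : Stable ((proj I).nabla m) (part I w m μ) := by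
  classical
  let _ : Fintype M := Fintype.ofFinite M
  have hI' : IsHomog I := hI
  have hw' : IsWHomog w I := hw
  have h0 : Stable ((cov (prC I)).nabla m) (HC (grP hI' hw') m μ) := stable_HC _ (fun D => exists_lft hI hs D) m μ
  have h3 : (partF w (fun _ _ h => tr I h) m μ : Submodule k ((cov (prC I)).DR m)) = HC (grP hI' hw') m μ :=
    partF_tr hI' hw' m μ
  rw [← h3] at h0
  have h1 : ∀ f g : ∀ J K : Finset (Fin n), J ⊆ K → (chart I J →ₐ[k] chart I K), f = g →
      Stable ((cvr I f).nabla m) (partF w f m μ) → Stable ((cvr I g).nabla m) (partF w g m μ) := by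
    rintro f g rfl hf
    exact hf
  exact h1 _ _ (funext fun J => funext fun K => funext fun h => (restriction_eq I h).symm) h0

theorem stable_inf {W : Type v} [AddCommGroup W] [Module k W] {nab : Derivation ℤ k k → W → W → Prop}
    {U V : Submodule k W} (hU : Stable nab U) (hV : Stable nab V) : Stable nab (U ⊓ V) :=
  fun D x hx y hy => ⟨hU D x hx.1 y hy, hV D x hx.2 y hy⟩

end MPadcTR
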