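import Pool.Agent.Lib.MP_adc574_ag_TR.F4
import Pool.Agent.Lib.MP_adc574_ag_TR.R2

/-!
# The main theorem for varieties built from large parts and from the cohomology of ordinary varieties
-/

set_option autoImplicit false

namespace OrdRel

open OrdRed MPadcGP Polynomial

universe u

theorem main_rel {k : Type u} [Field k] [IsAlgClosed k] [CharZero k] (A : Subalgebra ℤ k) (hA : A.FG) {n : ℕ}
    (I : Ideal (MvPolynomial (Fin n) A)) (hI : Homogeneous I) (hs : SmoothProj (change I (algebraMap A k)))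
    {M : Type} [AddCommGroup M] [Finite M] (w : Fin n → M) (hw : WeightHomogeneous (change I (algebraMap A k)) w)
    {s : ℕ} (J : Fin s → Ideal (MvPolynomial (Fin n) A)) (hle : ∀ l, J l ≤ I) (hJ : ∀ l, Homogeneous (J l))
    (hsJ : ∀ l, SmoothProj (change (J l) (algebraMap A k)))
    (hwJ : ∀ l, WeightHomogeneous (change (J l) (algebraMap A k)) w)
    {F : ℤ[X]} (hF : F ≠ 0) {r : ℕ} (α : Fin r → Module.End k ((proj (change I (algebraMap A k))).DR 1))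
    (hα : ∀ l, Geometric (proj (change I (algebraMap A k))) {x | aeval x F = 0} (α l))
    (hg : HasLargeParts (proj (change I (algebraMap A k))) (part (change I (algebraMap A k)) w)
      (fun l m μ => image (change (J l) (algebraMap A k)) (change I (algebraMap A k)) m ⊓
        part (change I (algebraMap A k)) w m μ) α) :
    ∃ a : A, a ≠ 0 ∧ ∀ b : A, b ≠ 0 → ∃ p₀ : ℕ, ∀ p : ℕ, p₀ ≤ p → GoodPrime (change I (algebraMap A k)) w F p →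
      (∃ 𝔓, 𝔓 ∈ (Ideal.span {(p : A)}).minimalPrimes) ∧ ∀ 𝔓 ∈ (Ideal.span {(p : A)}).minimalPrimes,
        (∀ l, ∃ 𝔪 : Ideal A, 𝔪.IsMaximal ∧ 𝔓 ≤ 𝔪 ∧ a ∉ 𝔪 ∧ OrdinaryAt (J l) 𝔪) →
        (∃ 𝔫 : Ideal A, 𝔫.IsMaximal ∧ 𝔓 ≤ 𝔫 ∧ b ∉ 𝔫 ∧ OrdinaryAt I 𝔫) ∧
          ∃ f ∉ 𝔓, ∀ 𝔫 : Ideal A, 𝔫.IsMaximal → 𝔓 ≤ 𝔫 → f ∉ 𝔫 → OrdinaryAt I 𝔫 := by
  classical
  let _ : Fintype M := Fintype.ofFinite M
  have hs' : IsSmoothProj (bI (algebraMap A k) I) := hs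
  have hI' : IsHomog I := hI
  have hI'' : IsHomog (bI (algebraMap A k) I) := hI'.map _
  have hI3 : Homogeneous (change I (algebraMap A k)) := hI'.map _
  have hw' : IsWHomog w (bI (algebraMap A k) I) := hw
  have hJ' : ∀ l, IsHomog (J l) := hJ
  have hJ'' : ∀ l, IsHomog (bI (algebraMap A k) (J l)) := fun l => (hJ' l).map _
  have hJ3 : ∀ l, Homogeneous (change (J l) (algebraMap A k)) := fun l => (hJ' l).map _
  have hsJ' : ∀ l, IsSmoothProj (bI (algebraMap A k) (J l)) := hsJ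
  have hwJ' : ∀ l, IsWHomog w (bI (algebraMap A k) (J l)) := hwJ
  have hst : ∀ m μ, Stable ((proj (change I (algebraMap A k))).nabla m) (part (change I (algebraMap A k)) w m μ) :=
    MPadcTR.stable_part hI3 hs hw
  have hgen := MPadcTR.generalRelEnd_of_built hI3 hs (part (change I (algebraMap A k)) w)
    (MPadcTT.iSup_part hI3 w hw 1) _ α hst
    (fun l m μ => MPadcTR.stable_inf (MPadcTR.stable_image (hJ3 l) (hsJ l) hI3 hs (Ideal.map_mono (hle l)) m) (hst m μ)) hg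
  obtain ⟨α', hα', hg'⟩ := exists_internalT (I₀ := fun l => bI (algebraMap A k) (J l)) hI'' hs' hw'
    (fun l => bI_mono (algebraMap A k) (hle l)) hJ'' hwJ' α hα hgen
  obtain ⟨a, ha0, hmain⟩ := open_endT A hA I hI' hs' hw' α' hF hα' hle hJ' hsJ' hwJ' hg'
  refine ⟨a, ha0, fun b hb => ?_⟩
  obtain ⟨p₀, hp₀⟩ := hmain b hb
  refine ⟨p₀, fun p hp hgood => ?_⟩
  obtain ⟨hprime, hspl, hdim⟩ := hgood
  obtain ⟨hex, hall⟩ := hp₀ p hp hprime hspl (fun m i μ => by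
    rw [← finrank_part hI'' hw', ← finrank_part hI'' hw']
    exact hdim m i μ)
  refine ⟨hex, fun 𝔓 h𝔓 hY => ?_⟩
  obtain ⟨⟨𝔫, h𝔫, hle𝔫, hb𝔫, hsm, hord⟩, f, hf, hop⟩ := hall 𝔓 h𝔓 fun l => by
    obtain ⟨𝔪, h𝔪, hle𝔪, ha𝔪, -, hord⟩ := hY l
    exact ⟨𝔪, h𝔪, hle𝔪, ha𝔪, (ordinary_proj_iff _).1 hord⟩
  refine ⟨⟨𝔫, h𝔫, hle𝔫, hb𝔫, hsm, (ordinary_proj_iff _).2 hord⟩, f, hf, fun 𝔫 h𝔫 hle hf𝔫 => ?_⟩
  obtain ⟨h1, h2⟩ := hop 𝔫 h𝔫 hle hf𝔫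
  exact ⟨h1, (ordinary_proj_iff _).2 h2⟩

/-- There are infinitely many of the primes. -/
theorem primes_rel {k : Type u} [Field k] {n : ℕ} (I : Ideal (MvPolynomial (Fin n) k)) {M : Type} [AddCommGroup M]
    [Finite M] (w : Fin n → M) {F : ℤ[X]} (hF : F ≠ 0) (p₁ : ℕ) : ∃ p : ℕ, p₁ < p ∧ GoodPrime I w F p := by
  classical
  let _ : Fintype M := Fintype.ofFinite M
  obtain ⟨p, hp, hprime, hmod, hspl⟩ := en_primes F hF (Nat.card M) Nat.card_pos p₁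
  refine ⟨p, hp, hprime, hspl, fun m i μ => ?_⟩
  obtain ⟨c, hc⟩ := (Nat.modEq_iff_dvd' hprime.one_le).1 hmod.symm
  have h3 : p = 1 + Nat.card M * c := by
    have h4 := hprime.one_le
    omega
  rw [h3, add_smul, one_smul, mul_smul, card_nsmul_eq_zero', add_zero]

/-- The closed points. -/
theorem dense_rel {k : Type u} [Field k] [CharZero k] (A : Subalgebra ℤ k) {n s : ℕ} {G : ℕ → Prop}
    (hG : ∀ p, G p → p.Prime) (hinf : ∀ p₁ : ℕ, ∃ p : ℕ, p₁ < p ∧ G p)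
    {I : Ideal (MvPolynomial (Fin n) A)} {J : Fin s → Ideal (MvPolynomial (Fin n) A)}
    (h : ∃ a : A, a ≠ 0 ∧ ∀ b : A, b ≠ 0 → ∃ p₀ : ℕ, ∀ p : ℕ, p₀ ≤ p → G p →
      (∃ 𝔓, 𝔓 ∈ (Ideal.span {(p : A)}).minimalPrimes) ∧ ∀ 𝔓 ∈ (Ideal.span {(p : A)}).minimalPrimes,
        (∀ l, ∃ 𝔪 : Ideal A, 𝔪.IsMaximal ∧ 𝔓 ≤ 𝔪 ∧ a ∉ 𝔪 ∧ OrdinaryAt (J l) 𝔪) →
        (∃ 𝔫 : Ideal A, 𝔫.IsMaximal ∧ 𝔓 ≤ 𝔫 ∧ b ∉ 𝔫 ∧ OrdinaryAt I 𝔫) ∧
          ∃ f ∉ 𝔓, ∀ 𝔫 : Ideal A, 𝔫.IsMaximal → 𝔓 ≤ 𝔫 → f ∉ 𝔫 → OrdinaryAt I 𝔫)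
    (hY : s = 0 ∨ DenselyOrdinary G J) : DenselyOrdinary G fun _ : Fin 1 => I := by
  obtain ⟨a, ha, h⟩ := h
  intro b hb
  obtain ⟨p₀, hp₀⟩ := h b hb
  have hmem : ∀ {p : ℕ} {𝔓 : Ideal A}, 𝔓 ∈ (Ideal.span {(p : A)}).minimalPrimes → (p : A) ∈ 𝔓 := fun h𝔓 =>
    h𝔓.1.2 (Ideal.mem_span_singleton_self _)
  rcases hY with rfl | hY
  · obtain ⟨p, hp, hGp⟩ := hinf p₀
    obtain ⟨⟨𝔓, h𝔓⟩, hall⟩ := hp₀ p hp.le hGp
    obtain ⟨⟨𝔫, h𝔫, hle, hb𝔫, hord⟩, -⟩ := hall 𝔓 h𝔓 fun l => l.elim0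
    exact ⟨p, 𝔫, hGp, h𝔫, hle (hmem h𝔓), hb𝔫, fun _ => hord⟩
  · have hfac : ((p₀.factorial : ℕ) : A) ≠ 0 := by
      intro h0
      have h1 : ((p₀.factorial : ℕ) : k) = 0 := by
        have h2 := congrArg (algebraMap A k) h0
        rwa [map_natCast, map_zero] at h2
      exact Nat.factorial_ne_zero p₀ (Nat.cast_eq_zero.1 h1)
    obtain ⟨p, 𝔪, hGp, h𝔪, hp𝔪, hc𝔪, hord⟩ := hY (a * (p₀.factorial : A)) (mul_ne_zero ha hfac)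
    have hple : p₀ ≤ p := by
      by_contra hlt
      have hdvd : p ∣ p₀.factorial := (hG p hGp).dvd_factorial.2 (not_le.1 hlt).le
      obtain ⟨c, hc⟩ := hdvd
      apply hc𝔪
      rw [hc, Nat.cast_mul]
      exact Ideal.mul_mem_left _ _ (Ideal.mul_mem_right _ _ hp𝔪)
    obtain ⟨-, hall⟩ := hp₀ p hple hGp
    have := h𝔪.isPrime
    obtain ⟨𝔓, h𝔓, hle⟩ := Ideal.exists_minimalPrimes_le (I := Ideal.span {(p : A)}) (J := 𝔪)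
      ((Ideal.span_singleton_le_iff_mem _).2 hp𝔪)
    have ha𝔪 : a ∉ 𝔪 := fun h1 => hc𝔪 (Ideal.mul_mem_right _ _ h1)
    obtain ⟨⟨𝔫, h𝔫, hle', hb𝔫, hord'⟩, -⟩ := hall 𝔓 h𝔓 fun l => ⟨𝔪, h𝔪, hle, ha𝔪, hord l⟩
    exact ⟨p, 𝔫, hGp, h𝔫, hle' (hmem h𝔓), hb𝔫, fun _ => hord'⟩

end OrdRel
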