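import Pool.Agent.Lib.MP_adc574_ag_TR.Def
import Pool.Agent.Lib.MP_adc574_ag_GP.BrS
import Pool.Agent.Lib.MP_adc574_ag_GP.Lifts
import Pool.Agent.Lib.MP_adc574_ag_TT.N3

/-!
# The image of the cohomology of a closed embedding is stable under the Gauss–Manin connection

`absH`: a morphism of cover data induces one of the cover data over `ℤ`; `rlC_push`: it is compatible with the maps to relative
cochains. `gm_push`: the derivative of the image of a class is the image of a class (`exists_eta`, `gaussManin_of_abs`).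
`stable_image`: `image I₀ I m` is stable.
-/

set_option autoImplicit false

namespace MPadcTR

open MPadcGP MPadcTT OrdRed OrdRel

universe u v

section abs

variable {A : Type u} [CommRing A] {n : ℕ} {X₀ X : CovD.{u, v} A n}

/-- The morphism of the cover data over the ring of integers. -/
def absH (F : CovD.Hm (RingHom.id A) X₀ X) : CovD.Hm (RingHom.id ℤ) (absD X₀) (absD X) where
  h J := (F.h J : X₀.R J →+* X.R J)
  base J a := by
    change F.h J (algebraMap ℤ (X₀.R J) a) = algebraMap ℤ (X.R J) a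
    rw [eq_intCast, eq_intCast, map_intCast]
  comm hJ r := F.comm hJ r

theorem rl_absH (F : CovD.Hm (RingHom.id A) X₀ X) (J : Finset (Fin n)) (e : (absD X₀).E J) :
    rl A (R := X.R J) ((absH F).e J e) = F.e J (rl A (R := X₀.R J) e) := by
  have h1 : (rl A (R := X.R J)).comp ((absH F).e J) = (F.e J).comp (rl A (R := X₀.R J)) := by
    refine hom_ext' (fun r => ?_) fun t => ?_
    · change rl A (R := X.R J) ((absH F).e J (fz ℤ r)) = F.e J (rl A (R := X₀.R J) (fz ℤ r))
      rw [CovD.Hm.e_fz, rl_fz, CovD.Hm.e_fz]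
      exact rl_fz A _
    · change rl A (R := X.R J) ((absH F).e J (df ℤ t)) = F.e J (rl A (R := X₀.R J) (df ℤ t))
      rw [CovD.Hm.e_df, rl_df, CovD.Hm.e_df]
      exact rl_df A _
  exact congrArg (fun g : (absD X₀).E J →+* X.E J => g e) h1

theorem rlC_push (F : CovD.Hm (RingHom.id A) X₀ X) (C : (absD X₀).Ch) :
    rlC X ((absH F).push C) = F.push (rlC X₀ C) := by
  funext J
  exact rl_absH F J (C J)

/-- The derivative of the image of a class is the image of a class. -/
theorem gm_push (F : CovD.Hm (RingHom.id A) X₀ X) {D : Derivation ℤ A A} (V₀ : Lft X₀ D) (V : Lft X D) {m : ℕ}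
    (c : ↥(X₀.Zc m)) (c' : ↥(X.Zc m)) (hc : (c' : X.Ch) = F.push (c : X₀.Ch)) :
    ∃ (b : ↥(X₀.Zc m)) (b' : ↥(X.Zc m)), (b' : X.Ch) = F.push (b : X₀.Ch) ∧
      X.gaussManin m D (X.cl m c') (X.cl m b') := by
  obtain ⟨C, r, a, η, hC, hη, hCc, hd⟩ := exists_eta c.2
  have h1 := hV_Dt V₀ hC.1
  have h2 := hV_eta V₀ a η (fun i => (hη i).1) hd
  have hs : (∑ i, D (a i) • rlC X₀ (η i)) ∈ X₀.Zc m := by
    have h3 : (∑ i, D (a i) • rlC X₀ (η i)) = V₀.Gm (c : X₀.Ch) - X₀.Dt (hV V₀ C) := by rw [← h2, h1, hCc]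
    rw [h3]
    refine Submodule.sub_mem _ (V₀.Gm_mem_Zc c.2) ?_
    cases m with
    | zero =>
      rw [hV_zero V₀ hC, map_zero]
      exact Submodule.zero_mem _
    | succ m => exact ⟨CovD.Dt_mem (hV_mem V₀ hC), CovD.Dt_Dt _⟩
  have hpz : F.push (∑ i, D (a i) • rlC X₀ (η i)) ∈ X.Zc m := by
    refine ⟨CovD.Hm.push_mem_Tt hs.1, ?_⟩
    change X.Dt (F.push (∑ i, D (a i) • rlC X₀ (η i))) = 0
    rw [← CovD.Hm.push_Dt]
    have h5 : X₀.Dt (∑ i, D (a i) • rlC X₀ (η i)) = 0 := hs.2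
    rw [h5, map_zero]
  refine ⟨⟨_, hs⟩, ⟨_, hpz⟩, rfl, ?_⟩
  refine gaussManin_of_abs V a (fun i => (absH F).push (η i)) (C := (absH F).push C) (CovD.Hm.push_mem_Tt hC)
    (fun i => CovD.Hm.push_mem_Tt (hη i)) (fun J => ?_) c' _ ?_ ?_
  · have h3 : (absD X).Dt ((absH F).push C) J = (absH F).e J ((absD X₀).Dt C J) := by
      rw [← CovD.Hm.push_Dt]
      rfl
    rw [h3, hd J, map_sum]
    refine Finset.sum_congr rfl fun i _ => ?_
    have h4 : (absH F).e J ((df ℤ (algebraMap A (X₀.R J) (a i)) : (absD X₀).E J) * η i J) =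
        (absH F).e J (df ℤ (algebraMap A (X₀.R J) (a i)) : (absD X₀).E J) * (absH F).e J (η i J) := map_mul _ _ _
    have h5 : (absH F).e J (df ℤ (algebraMap A (X₀.R J) (a i)) : (absD X₀).E J) =
        (df ℤ (algebraMap A (X.R J) (a i)) : (absD X).E J) := by
      have h6 : (absH F).e J (df ℤ (algebraMap A (X₀.R J) (a i)) : (absD X₀).E J) =
        df ℤ ((absH F).h J (algebraMap A (X₀.R J) (a i))) := CovD.Hm.e_df J _
      rw [h6]
      exact congrArg (df ℤ) (F.base J (a i))
    rw [h4, h5]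
    rfl
  · rw [rlC_push, hCc, hc]
  · change F.push (∑ i, D (a i) • rlC X₀ (η i)) = ∑ i, D (a i) • rlC X ((absH F).push (η i))
    rw [map_sum]
    refine Finset.sum_congr rfl fun i _ => ?_
    rw [CovD.Hm.push_smul, rlC_push]
    rfl

end abs

section field

variable {k : Type u} [Field k] {n : ℕ} {X₀ X : CovD.{u, u} k n}

theorem stable_imC (F : CovD.Hm (RingHom.id k) X₀ X) (hV₀ : ∀ D : Derivation ℤ k k, Nonempty (Lft X₀ D))
    (hV : ∀ D : Derivation ℤ k k, Nonempty (Lft X D)) (m : ℕ) : Stable ((cov X).nabla m) (imC F m) := by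
  intro D x hx y hy
  obtain ⟨V₀⟩ := hV₀ D
  obtain ⟨V⟩ := hV D
  obtain ⟨f, hf, hadd, hsmul⟩ := exists_op V m
  rw [(hf x y).1 hy]
  clear hy y
  have hf0 : f 0 = 0 := by
    have h1 := hadd 0 0
    rw [add_zero] at h1
    exact left_eq_add.1 h1
  obtain ⟨x, hx, rfl⟩ := hx
  unfold imU at hx
  induction hx using Submodule.span_induction with
  | mem x hx =>
    obtain ⟨c, c', hc, rfl⟩ := hx
    obtain ⟨b, b', hb, hgm⟩ := gm_push F V₀ V c c' hc
    have h1 := (hf _ _).1 ((nabla_iff V).2 hgm)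
    change f (cmp X m (X.cl m c')) ∈ imC F m
    rw [← h1]
    exact ⟨X.cl m b', Submodule.subset_span ⟨b, b', hb, rfl⟩, rfl⟩
  | zero =>
    rw [map_zero, hf0]
    exact Submodule.zero_mem _
  | add x y _ _ ihx ihy =>
    rw [map_add, hadd]
    exact Submodule.add_mem _ ihx ihy
  | smul a x hx ih =>
    rw [map_smul, hsmul]
    exact Submodule.add_mem _ (Submodule.smul_mem _ a ih) (Submodule.smul_mem _ (D a) ⟨x, hx, rfl⟩)

/-- The image of the cohomology of `Y` is stable under the Gauss–Manin connection. -/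
theorem stable_image {I₀ I : Ideal (MvPolynomial (Fin n) k)} (hI₀ : Homogeneous I₀) (hs₀ : SmoothProj I₀)
    (hI : Homogeneous I) (hs : SmoothProj I) (hle : I₀ ≤ I) (m : ℕ) : Stable ((proj I).nabla m) (image I₀ I m) := by
  have h0 : Stable ((cov (prC I)).nabla m) (imC (rsH hle) m) :=
    stable_imC (rsH hle) (fun D => exists_lft hI₀ hs₀ D) (fun D => exists_lft hI hs D) m
  rw [← imageF_tr hle m] at h0
  have h1 : ∀ (f₀ g₀ : ∀ J K : Finset (Fin n), J ⊆ K → (chart I₀ J →ₐ[k] chart I₀ K))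
      (f g : ∀ J K : Finset (Fin n), J ⊆ K → (chart I J →ₐ[k] chart I K)), f₀ = g₀ → f = g →
      Stable ((cvr I f).nabla m) (imageF f₀ f m) → Stable ((cvr I g).nabla m) (imageF g₀ g m) := by
    rintro f₀ g₀ f g rfl rfl hf
    exact hf
  exact h1 _ _ _ _ (funext fun J => funext fun K => funext fun h => (restriction_eq I₀ h).symm)
    (funext fun J => funext fun K => funext fun h => (restriction_eq I h).symm) h0

end field

end MPadcTR
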