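import Pool.Agent.Lib.MP_adc574_ag_TR.Int
import Pool.Agent.Lib.MP_adc574_ag_EN.U
import Pool.Agent.Lib.MP_adc574_ag_GP.G3U

/-!
# The theorem U for linear data with endomorphisms and subspaces
-/

set_option autoImplicit false
set_option linter.unusedSectionVars false

namespace MPadcGP

open MPadcCM MPadcGM U3

universe u v w

namespace EndD

section

variable {ι : Type} [Add ι] {A : Type u} [CommRing A] {X : LinW ι A} (Y : EndD X) (Z : TD X)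

/-- The additional relations. -/
noncomputable def toRT (k : Type v) [Field k] (Bd : Finset ι) (M : ℕ) (I : Fin Y.r → Prop) (d : Fin Y.r → ℕ) :
    RT (Y.toPD k Bd M I d) where
  E3 := Σ t : ↥Bd × Fin (M + 1), Σ l : Fin Z.s, Z.τ l t.1
  tgt3 e := .inl e.1
  κ e := Z.τ e.2.1 e.1.1
  fin3 e := Z.fτ e.2.1 e.1.1
  V e := Z.Tv e.2.1 e.1.1
  W e := Z.Tv e.2.1 e.1.1 e.2.2
  q e b := X.lev e.1.1 b < e.1.2.1 + 1

theorem isFam3_of_rel (k : Type v) [Field k] (Bd : Finset ι) (M : ℕ) (I : Fin Y.r → Prop) (d : Fin Y.r → ℕ)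
    {E : Type w} [Field E] {φ : A →+* E} {P : ∀ n, ℕ → Submodule E (X.β n → E)} (hP : Z.IsRel φ P) :
    IsFam3 (Y.toRT Z k Bd M I d) φ (Y.Ufam φ P) := by
  intro e
  obtain ⟨s, hs1, hs2⟩ := hP e.2.1 e.1.1 e.1.2 e.2.2
  rw [← cb_eq φ (Z.Tv e.2.1 e.1.1) s] at hs1 hs2
  refine ⟨s, hs1, fun b hb => ?_⟩
  have h1 := hs2 b hb
  rw [Pi.sub_apply, sub_eq_zero] at h1
  exact h1

theorem rel_of_isFam3 {k : Type u} [Field k] {j : A →+* k} {Bd : Finset ι} {M : ℕ} {I : Fin Y.r → Prop}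
    {d : Fin Y.r → ℕ} {P : ∀ t : Y.UT Bd M I, Submodule k (Y.Ub (Y.Usp t) → k)}
    (hP3 : IsFam3 (Y.toRT Z k Bd M I d) j P) (l : Fin Z.s) (n : ι) (i : ℕ) :
    Z.sub j l n ≤ Y.Ufil P n i ⊓ Z.sub j l n ⊔ X.fl k n (i + 1) ⊓ Z.sub j l n := by
  classical
  by_cases h : n ∈ Bd ∧ i < M + 1
  · have h0 : Y.Ufil P n i = P (.inl (⟨n, h.1⟩, ⟨i, h.2⟩)) := by
      unfold Ufil
      rw [dif_pos h]
    rw [h0]
    unfold TD.sub
    rw [Submodule.span_le]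
    rintro _ ⟨u, rfl⟩
    obtain ⟨s, hs1, hs2⟩ := hP3 ⟨(⟨n, h.1⟩, ⟨i, h.2⟩), ⟨l, u⟩⟩
    have hT : U3.cb j (Z.Tv l n) s ∈ Submodule.span k (Set.range fun u => fun b => j (Z.Tv l n u b)) := by
      rw [cb_eq]
      exact Submodule.sum_mem _ fun v _ => Submodule.smul_mem _ _ (Submodule.subset_span ⟨v, rfl⟩)
    have hu : (fun b => j (Z.Tv l n u b)) ∈
        Submodule.span k (Set.range fun u => fun b => j (Z.Tv l n u b)) :=
      Submodule.subset_span ⟨u, rfl⟩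
    refine Submodule.mem_sup.2 ⟨U3.cb j (Z.Tv l n) s, ⟨hs1, hT⟩,
      (fun b => j (Z.Tv l n u b)) - U3.cb j (Z.Tv l n) s, ⟨fun b hb => ?_, Submodule.sub_mem _ hu hT⟩,
      add_sub_cancel _ _⟩
    rw [Pi.sub_apply, sub_eq_zero]
    exact hs2 b hb
  · have h0 : Y.Ufil P n i = ⊤ := by
      unfold Ufil
      rw [dif_neg h]
    rw [h0, top_inf_eq]
    exact le_sup_left

end

end EndD

end MPadcGP
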