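import Pool.Agent.Lib.MP_adc574_ag_TR.U1

/-!
# The theorem U for linear data with endomorphisms and subspaces: one piece
-/

set_option autoImplicit false
set_option linter.unusedSectionVars false

namespace MPadcGP

open MPadcCM MPadcGM U3

universe u v w

namespace EndD

section key

variable {ι : Type} [Add ι] {A : Type u} [CommRing A] {k : Type u} [Field k] {j : A →+* k}

/-- Theorem U for one piece. -/
theorem key_oneT [IsAlgClosed k] (hj : Function.Injective j) (X : LinW ι A) (Y : EndD X) (Z : TD X)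
    (hgood : ∀ D' : Derivation ℤ k k, ∃ c : Fin X.N → k, ∀ a, D' (j a) = ∑ l, c l * j (X.D l a))
    (hcons : ∀ (n : ι) (c c' : Fin X.N → k),
      (∀ a, ∑ l, c l * j (X.D l a) = ∑ l, c' l * j (X.D l a)) →
        ∀ b b', ∑ l, c l * j (X.G n l b' b) = ∑ l, c' l * j (X.G n l b' b))
    {I : Fin Y.r → Prop} (hI : ∀ l, I l → Y.al l * Y.al l = Y.al l) {d : Fin Y.r → ℕ}
    (hgen : Y.GenT Z j I d) {L : ℕ → Type u} [∀ p, Field (L p)] {φ : ∀ p, A →+* L p} {B : A → ℕ}
    (hB : ResFields A L φ B) {Bd : Finset ι} {M : ℕ}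
    (hBd : ∀ n, n ∉ Bd → IsEmpty (X.β n))
    (hM : ∀ n b, X.lev n b < M + 1) (n₀ : ι) (i₀ : ℕ) (hn₀ : n₀ ∈ Bd) (hi₀ : i₀ < M + 1) :
    ∃ p₀ : ℕ, ∀ p : ℕ, p.Prime → p₀ < p →
      ∀ δ : Fin X.N → Derivation ℤ (L p) (L p), (∀ l x, δ l (φ p x) = φ p (X.D l x)) →
        ∀ P : ∀ n, ℕ → Submodule (L p) (X.β n → L p), X.IsConj (φ p) P → X.IsStab (φ p) δ P →
          Y.IsEnd (φ p) I d P → Z.IsRel (φ p) P →
          ∀ x ∈ P n₀ i₀, x ∈ X.fl (L p) n₀ (i₀ + 1) → x = 0 := by
  classical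
  choose cc hcc using hgood
  -- the basis of the Hodge filtration
  have hcard : Fintype.card {b : X.β n₀ // i₀ + 1 ≤ X.lev n₀ b} =
      Module.finrank k (X.fl k n₀ (i₀ + 1)) := (X.finrank_fl k n₀ (i₀ + 1)).symm
  obtain ⟨q⟩ : Nonempty (Fin (Module.finrank k (X.fl k n₀ (i₀ + 1))) ≃
    {b : X.β n₀ // i₀ + 1 ≤ X.lev n₀ b}) := ⟨(Fintype.equivFinOfCardEq hcard).symm⟩
  let f : Fin (Module.finrank k (X.fl k n₀ (i₀ + 1))) → X.β n₀ → A := fun u => X.idm n₀ (q u).1
  have hfφ : ∀ {R : Type u} [CommRing R] (g : A →+* R) (u) (a : X.β n₀),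
      g (f u a) = if (q u).1 = a then 1 else 0 := by
    intro R _ g u a
    change g (if (q u).1 = a then 1 else 0) = _
    by_cases h : (q u).1 = a
    · rw [if_pos h, if_pos h, map_one]
    · rw [if_neg h, if_neg h, map_zero]
  -- expansion of the vectors of the Hodge filtration
  have hexp : ∀ {R : Type u} [Field R] (g : A →+* R), ∀ x ∈ X.fl R n₀ (i₀ + 1),
      x = ∑ u, x (q u).1 • fun a => g (f u a) := by
    intro R _ g x hx
    funext a
    rw [Finset.sum_apply]
    by_cases ha : i₀ + 1 ≤ X.lev n₀ a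
    · rw [Finset.sum_eq_single (q.symm ⟨a, ha⟩)]
      · rw [Pi.smul_apply, hfφ, Equiv.apply_symm_apply, if_pos rfl, smul_eq_mul, mul_one]
      · intro u _ hu
        rw [Pi.smul_apply, hfφ, if_neg, smul_zero]
        intro h
        apply hu
        rw [Equiv.eq_symm_apply]
        exact Subtype.ext h
      · intro h
        exact absurd (Finset.mem_univ _) h
    · rw [hx a (not_le.1 ha)]
      symm
      refine Finset.sum_eq_zero fun u _ => ?_
      rw [Pi.smul_apply, hfφ, if_neg, smul_zero]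
      rintro rfl
      exact ha (q u).2
  have hlin : LinearIndependent k fun u => (fun a => j (f u a) : X.β n₀ → k) := by
    have h1 : (fun u => (fun a => j (f u a) : X.β n₀ → k)) =
        (Pi.basisFun k (X.β n₀)) ∘ fun u => (q u).1 := by
      funext u a
      rw [hfφ, Function.comp_apply, Pi.basisFun_apply, Pi.single_apply]
      by_cases h : (q u).1 = a
      · rw [if_pos h, if_pos h.symm]
      · rw [if_neg h, if_neg (Ne.symm h)]
    rw [h1]
    exact (Pi.basisFun k (X.β n₀)).linearIndependent.comp _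
      (Subtype.val_injective.comp q.injective)
  have hDk : ∀ D' : Derivation ℤ k k, ∃ α : Fin X.N → k, (∀ x, D' (j x) = ∑ l, α l * j (X.D l x)) ∧
      ∀ a : X.β n₀, X.nb j cc n₀ D' (Pi.basisFun k _ a) =
        ∑ a', (∑ l, α l * j (X.G n₀ l a' a)) • Pi.basisFun k _ a' := by
    intro D'
    refine ⟨cc D', hcc D', fun a => ?_⟩
    funext b'
    rw [LinW.nb_apply, Finset.sum_apply]
    have h1 : ∀ y : X.β n₀ → k, ∑ b, y b * (Pi.basisFun k (X.β n₀) a) b = y a := by
      intro y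
      rw [Finset.sum_eq_single a]
      · rw [Pi.basisFun_apply, Pi.single_eq_same, mul_one]
      · intro b _ hb
        rw [Pi.basisFun_apply, Pi.single_eq_of_ne hb, mul_zero]
      · intro h
        exact absurd (Finset.mem_univ _) h
    have h2 : D' ((Pi.basisFun k (X.β n₀) a) b') = 0 := by
      rw [Pi.basisFun_apply, Pi.single_apply]
      by_cases h : b' = a
      · rw [if_pos h, Derivation.map_one_eq_zero]
      · rw [if_neg h, map_zero]
    rw [h2, zero_add, Finset.sum_congr rfl fun l _ => by rw [h1 fun b => j (X.G n₀ l b' b)]]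
    rw [Finset.sum_eq_single b']
    · rw [Pi.smul_apply, Pi.basisFun_apply, Pi.single_eq_same, smul_eq_mul, mul_one]
    · intro b _ hb
      rw [Pi.smul_apply, Pi.basisFun_apply, Pi.single_eq_of_ne (Ne.symm hb), smul_zero]
    · intro h
      exact absurd (Finset.mem_univ _) h
  have hfin : Finite (Y.toPD k Bd M I d).T := inferInstanceAs (Finite (Y.UT Bd M I))
  have hfin3 : Finite (Y.toRT Z k Bd M I d).E3 :=
    inferInstanceAs (Finite (Σ t : ↥Bd × Fin (M + 1), Σ l : Fin Z.s, Z.τ l t.1))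
  obtain ⟨p₀, hp₀⟩ := fam_large3 hj hB (Y.toPD k Bd M I d) (Y.toRT Z k Bd M I d) (.inl (⟨n₀, hn₀⟩, ⟨i₀, hi₀⟩))
    (nab := X.nb j cc n₀) (X.nb_conn cc n₀) X.D (X.G n₀) hDk
    (X.fl k n₀ (i₀ + 1)) f hlin (by
      intro x hx
      rw [hexp j x hx]
      exact Submodule.sum_mem _ fun u _ => Submodule.smul_mem _ _ (Submodule.subset_span ⟨u, rfl⟩))
    (by
      intro P' hP' hP3' W hW hex
      have h1 := hgen _ (Y.U_conj hBd hM hP') ⟨Y.U_end hBd hM hI hP', fun l t i => Y.rel_of_isFam3 Z hP3' l t i⟩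
        n₀ i₀ W (X.hor_of_isHor hcc hcons n₀ hW) (by
        obtain ⟨ω, hω, hω0, hk⟩ := hex
        refine ⟨ω, hω, hω0, fun x hx => hk x ?_⟩
        obtain ⟨u, hu⟩ := hx
        refine ⟨u, ?_⟩
        unfold Ufil at hu
        rw [dif_pos ⟨hn₀, hi₀⟩] at hu
        exact hu)
      exact h1)
  refine ⟨p₀, fun p hp hpp δ hδ P hP hst hE hR x hxP hxF => ?_⟩
  have h1 := hp₀ p hp hpp δ hδ _ (Y.isFam_of_end k Bd M hI hP hE) (Y.isFam3_of_rel Z k Bd M I d hR)
    (fun l y hy => hst n₀ i₀ l y hy)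
    (fun u => x (q u).1) (by
      have h2 := hexp (φ p) x hxF
      have h3 : (∑ u, x (q u).1 • fun a => φ p (f u a)) ∈ P n₀ i₀ := by
        rw [← h2]
        exact hxP
      exact h3)
  rw [hexp (φ p) x hxF]
  refine Finset.sum_eq_zero fun u _ => ?_
  have h2 : x (q u).1 = 0 := congrFun h1 u
  rw [h2, zero_smul]

end key

end EndD

end MPadcGP
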